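import Pool.Agent.Y169.TH.Kod
import Pool.Agent.Y169.CH.Mak

/-!
A linear change of the coordinates.
-/

set_option autoImplicit false
set_option linter.overlappingInstances false
set_option linter.unusedSectionVars false
set_option maxHeartbeats 400000

open FF MvPolynomial Pool.Agent.W603.LV Pool.Agent.W602.GT Pool.Agent.W602.Cov
open Pool.Agent.TH122.AB Pool.Agent.Y169.CH

namespace Pool.Agent.Y169.TH

section

variable {n : ℕ} {F : Fin (n + 1) → MvPolynomial (Fin (n + 1)) ℂ}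

theorem snc_ne (hS : Snc F) (k : Fin (n + 1)) : F k ≠ 0 := by
  intro h0
  have h1 := hS (Pi.single 0 1) (by
    intro h
    have := congrFun h 0
    simp at this)
  have h2 := h1.ne_zero ⟨k, by rw [h0, map_zero]⟩
  apply h2
  funext l
  change eval _ (pderiv l (F k)) = 0
  rw [h0, map_zero, map_zero]

/-- the shear of the gradients -/
noncomputable def shL (q : Fin (n + 1) → ℂ) : (Fin (n + 1) → ℂ) →ₗ[ℂ] (Fin (n + 1) → ℂ) where
  toFun := fun g l => g l + if Fin.last n = l then ∑ j, g j * q j else 0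
  map_add' := by
    intro a b
    funext l
    simp only [Pi.add_apply, add_mul, Finset.sum_add_distrib]
    split_ifs <;> ring
  map_smul' := by
    intro c a
    funext l
    simp only [Pi.smul_apply, smul_eq_mul, RingHom.id_apply]
    split_ifs
    · rw [mul_add, Finset.mul_sum]
      congr 1
      exact Finset.sum_congr rfl fun j _ => by ring
    · ring

theorem shL_inj {q : Fin (n + 1) → ℂ} (hq : q (Fin.last n) = 0) : LinearMap.ker (shL q) = ⊥ := by
  rw [LinearMap.ker_eq_bot']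
  intro g hg
  have h1 : ∀ l, l ≠ Fin.last n → g l = 0 := by
    intro l hl
    have h2 := congrFun hg l
    change g l + (if Fin.last n = l then ∑ j, g j * q j else 0) = 0 at h2
    rwa [if_neg hl.symm, add_zero] at h2
  funext l
  by_cases hl : l = Fin.last n
  · have h2 := congrFun hg (Fin.last n)
    change g (Fin.last n) + (if Fin.last n = Fin.last n then ∑ j, g j * q j else 0) = 0 at h2
    rw [if_pos rfl, Finset.sum_eq_zero, add_zero] at h2
    · rw [hl]
      exact h2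
    · intro j _
      by_cases hj : j = Fin.last n
      · rw [hj, hq, mul_zero]
      · rw [h1 j hj, zero_mul]
  · exact h1 l hl

/-- the point in the new coordinates -/
def shp (q y : Fin (n + 1) → ℂ) (j : Fin (n + 1)) : ℂ := y j + q j * y (Fin.last n)

theorem eval_shp (q y : Fin (n + 1) → ℂ) (G : MvPolynomial (Fin (n + 1)) ℂ) :
    eval y (aeval (sh q) G) = eval (shp q y) G := by
  have h2 := MvPolynomial.comp_aeval_apply (sh q) (aeval (R := ℂ) y) G
  have h3 : (fun j => aeval y (sh q j)) = shp q y := by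
    funext j
    unfold sh shp
    rw [map_add, map_mul, aeval_X, aeval_X, aeval_C]
    rfl
  rw [h3] at h2
  exact h2

theorem snc_sh {q : Fin (n + 1) → ℂ} (hq : q (Fin.last n) = 0) (hS : Snc F) :
    Snc fun k => shF q 1 (F k) := by
  classical
  intro y hy
  have hy0 : shp q y ≠ 0 := by
    intro h0
    apply hy
    have h1 : ∀ j, y j + q j * y (Fin.last n) = 0 := fun j => congrFun h0 j
    have h2 := h1 (Fin.last n)
    rw [hq, zero_mul, add_zero] at h2
    funext j
    have h3 := h1 j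
    rw [h2, mul_zero, add_zero] at h3
    exact h3
  have hev : ∀ k, eval y (shF q 1 (F k)) = eval (shp q y) (F k) := by
    intro k
    unfold shF
    rw [C_1, one_mul, eval_shp]
  have h1 := (hS (shp q y) hy0).map' (shL q) (shL_inj hq)
  have h2 := h1.comp (fun k : {k // eval y (shF q 1 (F k)) = 0} =>
    (⟨k.1, by rw [← hev]; exact k.2⟩ : {k // eval (shp q y) (F k) = 0}))
    (fun a b hab => Subtype.ext (by simpa using hab))
  have h3 : (fun (k : {k // eval y (shF q 1 (F k)) = 0}) (l : Fin (n + 1)) =>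
      eval y (pderiv l (shF q 1 (F k.1)))) =
      (shL q ∘ fun (k : {k // eval (shp q y) (F k) = 0}) (l : Fin (n + 1)) =>
        eval (shp q y) (pderiv l (F k.1))) ∘ fun k : {k // eval y (shF q 1 (F k)) = 0} =>
        (⟨k.1, by rw [← hev]; exact k.2⟩ : {k // eval (shp q y) (F k) = 0}) := by
    funext k' l
    obtain ⟨k, hk⟩ := k'
    change eval y (pderiv l (shF q 1 (F k))) = eval (shp q y) (pderiv l (F k)) +
      if Fin.last n = l then ∑ j, eval (shp q y) (pderiv j (F k)) * q j else 0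
    clear hk
    unfold shF
    rw [C_1, one_mul, chain_ring, map_sum]
    have h4 : ∀ j, eval y (aeval (sh q) (pderiv j (F k)) * pderiv l (sh q j)) =
        eval (shp q y) (pderiv j (F k)) *
          ((if j = l then 1 else 0) + (if Fin.last n = l then q j else 0)) := by
      intro j
      rw [map_mul, eval_shp, pderiv_sh, eval_C]
    rw [Finset.sum_congr rfl fun j _ => h4 j]
    simp only [mul_add, Finset.sum_add_distrib]
    congr 1
    · rw [Finset.sum_eq_single l]
      · rw [if_pos rfl, mul_one]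
      · intro j _ hj
        rw [if_neg hj, mul_zero]
      · intro h
        exact absurd (Finset.mem_univ _) h
    · by_cases hl : Fin.last n = l
      · simp only [if_pos hl]
      · simp only [if_neg hl, mul_zero, Finset.sum_const_zero]
  rw [h3]
  exact h2

/-- a common shear -/
theorem exists_sh2 {dF : Fin (n + 1) → ℕ} (hh : ∀ k, (F k).IsHomogeneous (dF k))
    (hF : ∀ k, F k ≠ 0) : ∃ q : Fin (n + 1) → ℂ, q (Fin.last n) = 0 ∧
      ∀ k, coeff (Finsupp.single (Fin.last n) (dF k)) (shF q 1 (F k)) ≠ 0 := by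
  classical
  obtain ⟨p, hp⟩ : ∃ p : Fin (n + 1) → ℂ, eval p ((∏ k, F k) * X (Fin.last n)) ≠ 0 := by
    by_contra hcon
    push Not at hcon
    have h1 : (∏ k, F k) * X (Fin.last n) = 0 := by
      apply MvPolynomial.funext
      intro p
      rw [hcon p, map_zero]
    exact (mul_ne_zero (Finset.prod_ne_zero_iff.2 fun k _ => hF k) (X_ne_zero _)) h1
  rw [map_mul, eval_X, map_prod] at hp
  have hp1 : ∀ k, eval p (F k) ≠ 0 := fun k =>
    Finset.prod_ne_zero_iff.1 (left_ne_zero_of_mul hp) k (Finset.mem_univ k)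
  have hp2 := right_ne_zero_of_mul hp
  obtain ⟨p', hp'⟩ : ∃ p' : Fin (n + 1) → ℂ, p' = fun j => (p (Fin.last n))⁻¹ * p j := ⟨_, rfl⟩
  have hp3 : ∀ k, eval p' (F k) ≠ 0 := by
    intro k
    have h1 := aeval_smul_form (K := ℂ) (hh k) (p (Fin.last n))⁻¹ p
    have h2 : eval p' (F k) = (p (Fin.last n))⁻¹ ^ dF k * eval p (F k) := by
      rw [hp']
      exact h1
    rw [h2]
    exact mul_ne_zero (pow_ne_zero _ (inv_ne_zero hp2)) (hp1 k)
  have hpl : p' (Fin.last n) = 1 := by
    rw [hp']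
    exact inv_mul_cancel₀ hp2
  refine ⟨Function.update p' (Fin.last n) 0, Function.update_self _ _ _, fun k => ?_⟩
  rw [coeff_eq_eval (shF_hom _ _ (hh k))]
  unfold shF
  rw [C_1, one_mul, eval_shp]
  have h3 : shp (Function.update p' (Fin.last n) 0) (Pi.single (Fin.last n) (1 : ℂ)) = p' := by
    funext j
    unfold shp
    rw [Pi.single_eq_same, mul_one]
    by_cases hj : j = Fin.last n
    · rw [hj, Pi.single_eq_same, Function.update_self, add_zero, hpl]
    · rw [Pi.single_eq_of_ne hj, Function.update_of_ne hj, zero_add]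
  rw [h3]
  exact hp3 k

end

variable {d R : ℕ} {K : Type} [Field K] [Algebra ℂ K]

/-- **The cover.** -/
theorem exists_cv {x : Fin (d + 2) → K} (hx0 : x 0 ≠ 0)
    (hbas : IsTranscendenceBasis ℂ fun b : Fin (d + 1) => x b.succ / x 0)
    {F : Fin (d + 2) → MvPolynomial (Fin (d + 2)) ℂ} {dF : Fin (d + 2) → ℕ} (hd : ∀ k, 0 < dF k)
    (hh : ∀ k, (F k).IsHomogeneous (dF k)) (hS : Snc F) {z : Fin R → K} {M : Fin R → ℕ}
    (hM : ∀ j, 0 < M j) {a : Fin R → Fin (d + 2) → ℕ}
    (hz : ∀ j, z j ^ M j = ∏ k, (aeval x (F k) / x 0 ^ dF k) ^ a j k)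
    (hdiv : ∀ j, M j ∣ ∑ k, a j k * dF k)
    (hgen : IntermediateField.adjoin ℂ
      (Set.range (fun b : Fin (d + 1) => x b.succ / x 0) ∪ Set.range z) = ⊤) :
    ∃ Φ : Arr (d + 1), Φ.dF = dF ∧ ∃ C : Cv Φ K R, C.M = M ∧ C.a = a := by
  classical
  obtain ⟨q, hq, hqc⟩ := exists_sh2 hh (snc_ne hS)
  obtain ⟨x', hx'⟩ : ∃ x' : Fin (d + 2) → K, x' = shx q x := ⟨_, rfl⟩
  obtain ⟨F', hF'⟩ : ∃ F' : Fin (d + 2) → MvPolynomial (Fin (d + 2)) ℂ,
    F' = fun k => shF q 1 (F k) := ⟨_, rfl⟩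
  have hxx' : ∀ j, x j = x' j + algebraMap ℂ K (q j) * x' (Fin.last (d + 1)) := by
    intro j
    rw [hx', shx_last hq]
    unfold shx
    ring
  have hev : ∀ k, aeval x' (F' k) = aeval x (F k) := fun k => by
    rw [hx', hF']
    have h1 := aeval_shF hq x 1 (F k)
    rwa [map_one, one_mul] at h1
  have hx'0 : x' 0 ≠ 0 := by
    intro h0
    rw [hx'] at h0
    have h1 : aeval (fun b : Fin (d + 1) => x b.succ / x 0) (1 - C (q 0) * X (Fin.last d)) = 0 := by
      rw [map_sub, map_one, map_mul, aeval_C, aeval_X]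
      have h3 : x 0 - algebraMap ℂ K (q 0) * x (Fin.last (d + 1)) = 0 := h0
      have h4 : (Fin.last d).succ = Fin.last (d + 1) := rfl
      rw [h4]
      field_simp
      linear_combination h3
    have h2 := (injective_iff_map_eq_zero _).1 hbas.1 _ h1
    have h3 := congrArg (eval (0 : Fin (d + 1) → ℂ)) h2
    simp at h3
  obtain ⟨ρ, hρ⟩ : ∃ ρ : K, ρ = x 0 / x' 0 := ⟨_, rfl⟩
  have hρ0 : ρ ≠ 0 := by
    rw [hρ]
    exact div_ne_zero hx0 hx'0
  have hkey : ∀ L : IntermediateField ℂ K, (∀ b : Fin (d + 1), x' b.succ / x' 0 ∈ L) → ∀ j,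
      x j / x' 0 ∈ L := by
    intro L hL j
    have h1 : ∀ j, x' j / x' 0 ∈ L := by
      intro j
      refine Fin.cases ?_ (fun l => hL l) j
      rw [div_self hx'0]
      exact L.one_mem
    have h2 : x j / x' 0 = x' j / x' 0 +
        algebraMap ℂ K (q j) * (x' (Fin.last (d + 1)) / x' 0) := by
      rw [hxx' j]
      ring
    rw [h2]
    exact L.add_mem (h1 j) (L.mul_mem (L.algebraMap_mem _) (h1 _))
  have hkey2 : ∀ L : IntermediateField ℂ K, (∀ b : Fin (d + 1), x' b.succ / x' 0 ∈ L) →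
      ∀ b : Fin (d + 1), x b.succ / x 0 ∈ L := by
    intro L hL b
    have h1 : x b.succ / x 0 = (x b.succ / x' 0) / (x 0 / x' 0) :=
      (div_div_div_cancel_right₀ hx'0 _ _).symm
    rw [h1]
    exact L.div_mem (hkey L hL _) (hkey L hL _)
  obtain ⟨X, hX⟩ : ∃ X : Fin (d + 2) → K, X = fun j => x' j / x' 0 := ⟨_, rfl⟩
  have hX0 : X 0 = 1 := by
    rw [hX]
    exact div_self hx'0
  have hXs : ∀ b : Fin (d + 1), X b.succ = x' b.succ / x' 0 := fun b => by rw [hX]
  have hbas' : IsTranscendenceBasis ℂ fun b : Fin (d + 1) => X b.succ := by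
    refine basis_of_le hbas ?_
    rw [IntermediateField.adjoin_le_iff]
    rintro _ ⟨b, rfl⟩
    refine hkey2 _ (fun b' => ?_) b
    rw [← hXs]
    exact IntermediateField.subset_adjoin ℂ _ ⟨b', rfl⟩
  have hFX : ∀ k, aeval X (F' k) = aeval x (F k) / x' 0 ^ dF k := by
    intro k
    have h1 : (F' k).IsHomogeneous (dF k) := by
      rw [hF']
      exact shF_hom _ _ (hh k)
    rw [eq_div_iff (pow_ne_zero _ hx'0), mul_comm, ← aeval_smul_form h1, ← hev]
    congr 2
    funext l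
    rw [hX, mul_div_cancel₀ _ hx'0]
  obtain ⟨s, hs⟩ : ∃ s : Fin R → ℕ, s = fun j => (∑ k, a j k * dF k) / M j := ⟨_, rfl⟩
  have hsM : ∀ j, s j * M j = ∑ k, a j k * dF k := fun j => by
    rw [hs]
    exact Nat.div_mul_cancel (hdiv j)
  let Φ : Arr (d + 1) :=
    { F := F'
      dF := dF
      hd := hd
      hh := fun k => by
        rw [hF']
        exact shF_hom _ _ (hh k)
      hS := by
        rw [hF']
        exact snc_sh hq hS
      hI := fun k => ⟨Finsupp.single (Fin.last (d + 1)) (dF k), by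
        rw [mem_support_iff, hF']
        exact hqc k, by
        rw [Finsupp.single_apply, if_neg]
        exact (Fin.succ_ne_zero (Fin.last d))⟩ }
  refine ⟨Φ, rfl, ⟨X, hX0, hbas', fun j => z j * ρ ^ s j, M, hM, a, fun j => ?_, hdiv, ?_⟩, rfl, rfl⟩
  · change (z j * ρ ^ s j) ^ M j = ∏ k, aeval X (F' k) ^ a j k
    rw [mul_pow, hz, ← pow_mul, hsM, ← Finset.prod_pow_eq_pow_sum, ← Finset.prod_mul_distrib]
    refine Finset.prod_congr rfl fun k _ => ?_
    rw [hFX, mul_comm (a j k), pow_mul ρ, ← mul_pow, hρ]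
    congr 1
    rw [div_pow]
    field_simp
  · rw [eq_top_iff, ← hgen, IntermediateField.adjoin_le_iff]
    obtain ⟨L, hL⟩ : ∃ L, L = IntermediateField.adjoin ℂ
      (Set.range (fun b : Fin (d + 1) => X b.succ) ∪ Set.range fun j => z j * ρ ^ s j) := ⟨_, rfl⟩
    rw [← hL]
    have hu : ∀ b : Fin (d + 1), x' b.succ / x' 0 ∈ L := fun b => by
      rw [hL, ← hXs]
      exact IntermediateField.subset_adjoin ℂ _ (Or.inl ⟨b, rfl⟩)
    rintro _ (⟨b, rfl⟩ | ⟨j, rfl⟩)
    · exact hkey2 L hu b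
    · have h1 : z j * ρ ^ s j ∈ L := by
        rw [hL]
        exact IntermediateField.subset_adjoin ℂ _ (Or.inr ⟨j, rfl⟩)
      have h2 : ρ ^ s j ∈ L := by
        have h3 : ρ ∈ L := by
          rw [hρ]
          exact hkey L hu 0
        exact pow_mem h3 _
      have h3 := L.div_mem h1 h2
      rwa [mul_div_cancel_right₀ _ (pow_ne_zero _ hρ0)] at h3

/-- **The main theorem.** -/
theorem main {x : Fin (d + 2) → K} (hx0 : x 0 ≠ 0)
    (hbas : IsTranscendenceBasis ℂ fun b : Fin (d + 1) => x b.succ / x 0)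
    {F : Fin (d + 2) → MvPolynomial (Fin (d + 2)) ℂ} {dF : Fin (d + 2) → ℕ} (hd : ∀ k, 0 < dF k)
    (hh : ∀ k, (F k).IsHomogeneous (dF k)) (hS : Snc F) {z : Fin R → K} {M : Fin R → ℕ}
    (hM : ∀ j, 0 < M j) {a : Fin R → Fin (d + 2) → ℕ}
    (hz : ∀ j, z j ^ M j = ∏ k, (aeval x (F k) / x 0 ^ dF k) ^ a j k)
    (hdiv : ∀ j, M j ∣ ∑ k, a j k * dF k)
    (hgen : IntermediateField.adjoin ℂ
      (Set.range (fun b : Fin (d + 1) => x b.succ / x 0) ∪ Set.range z) = ⊤) :
    (APsef (d + 1) K ↔ (PiA M a dF).Nonempty) ∧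
    (AKod (d + 1) K 0 ↔ (PiA M a dF).Nonempty) ∧
    ((PiA M a dF).Nonempty →
      AKod (d + 1) K (Module.finrank ℚ (vectorSpan ℚ (PiA M a dF))) ∧
      ANum (d + 1) K (Module.finrank ℚ (vectorSpan ℚ (PiA M a dF)))) := by
  classical
  obtain ⟨Φ, rfl, C, rfl, rfl⟩ := exists_cv hx0 hbas hd hh hS hM hz hdiv hgen
  have h1 : APsef (d + 1) K → (PiA C.M C.a Φ.dF).Nonempty := by
    rintro ⟨S, hpsef⟩
    by_contra hcon
    rw [Set.not_nonempty_iff_eq_empty] at hcon
    obtain ⟨M0, hM0⟩ := C.not_psef hcon S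
    obtain ⟨j, hj, ω, hω0, hω⟩ := hpsef M0
    exact hω0 (hM0 j hj ω (asec_sec hω))
  have h2 : (PiA C.M C.a Φ.dF).Nonempty →
      AKod (d + 1) K (Module.finrank ℚ (vectorSpan ℚ (PiA C.M C.a Φ.dF))) := fun hne =>
    C.kod_ge hne rfl
  have h3 : ∀ h, AKod (d + 1) K h → AKod (d + 1) K 0 := by
    rintro h ⟨m, hm, ω, hω, D, hD, -⟩
    refine ⟨m, hm, fun _ => ω 0, fun _ => hω 0, D, hD, ?_⟩
    exact algebraicIndependent_empty_type
  refine ⟨⟨h1, fun hne => psef_of_kod (h2 hne)⟩, ⟨fun hk => h1 (psef_of_kod hk), fun hne =>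
    h3 _ (h2 hne)⟩, fun hne => ⟨h2 hne, fun S => ?_⟩⟩
  obtain ⟨C1, hC1⟩ := C.num_le hne S
  exact ⟨C1, fun m N hm ⟨ω, hlin, hω⟩ => hC1 m N hm ω hlin fun l => asec_one (hω l)⟩

end Pool.Agent.Y169.TH
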