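import Pool.Agent.TH152.AC.Farkas
import Mathlib

/-!
Rational polyhedra given by inequalities with nonnegative coefficients.
-/

set_option autoImplicit false
set_option linter.overlappingInstances false
set_option linter.unusedSectionVars false
set_option maxHeartbeats 400000

open Pool.Agent.TH152.AC

namespace Pool.Agent.Y169.TH

section

variable {N : ℕ} {ι : Type} [Fintype ι]

/-- the linear form -/
def dotL (v : Fin N → ℚ) : (Fin N → ℚ) →ₗ[ℚ] ℚ where
  toFun := fun y => ∑ k, v k * y k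
  map_add' := by
    intro a b
    simp only [Pi.add_apply, mul_add, Finset.sum_add_distrib]
  map_smul' := by
    intro c a
    simp only [Pi.smul_apply, smul_eq_mul, RingHom.id_apply, Finset.mul_sum]
    exact Finset.sum_congr rfl fun k _ => by ring

theorem dotL_apply (v y : Fin N → ℚ) : dotL v y = ∑ k, v k * y k := rfl

theorem dotL_single (v : Fin N → ℚ) (k : Fin N) : dotL v (Pi.single k 1) = v k := by
  rw [dotL_apply, Finset.sum_eq_single k]
  · rw [Pi.single_eq_same, mul_one]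
  · intro b _ hb
    rw [Pi.single_eq_of_ne hb, mul_zero]
  · intro h
    exact absurd (Finset.mem_univ _) h

/-- the polyhedron -/
def Pol (d : Fin N → ℚ) (κ : ℚ) (v : ι → Fin N → ℚ) : Set (Fin N → ℚ) :=
  {y | dotL d y = κ ∧ ∀ s, 1 ≤ dotL (v s) y}

theorem farkas_fin {U J : Type} [AddCommGroup U] [Module ℚ U] [Fintype J] (l : J → U →ₗ[ℚ] ℚ)
    (f : U →ₗ[ℚ] ℚ) (h : ∀ x, (∀ j, l j x ≤ 0) → f x ≤ 0) :
    ∃ w : J → ℚ, (∀ j, 0 ≤ w j) ∧ ∀ x, f x = ∑ j, w j * l j x := by
  classical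
  let e := Fintype.equivFin J
  obtain ⟨w, hw, hf⟩ := farkas_q (Fintype.card J) (fun k => l (e.symm k)) f (by
    intro x hx
    exact h x fun j => by simpa using hx (e j))
  refine ⟨fun j => w (e j), fun j => hw _, fun x => ?_⟩
  rw [hf, ← Equiv.sum_comp e]
  exact Finset.sum_congr rfl fun j _ => by rw [e.symm_apply_apply]

variable {d : Fin N → ℚ} {κ : ℚ} {v : ι → Fin N → ℚ}

theorem scale_pol {y : Fin N → ℚ} {t : ℚ} (ht : 0 < t) (h1 : dotL d y = κ * t)
    (h2 : ∀ s, t ≤ dotL (v s) y) : t⁻¹ • y ∈ Pol d κ v := by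
  refine ⟨?_, fun s => ?_⟩
  · rw [map_smul, h1, smul_eq_mul]
    field_simp
  · rw [map_smul, smul_eq_mul, ← mul_inv_cancel₀ ht.ne', mul_comm t]
    exact mul_le_mul_of_nonneg_left (h2 s) (by positivity)

/-- **The empty polyhedron.** -/
theorem lp_empty (hd : ∀ k, 0 < d k) (hv : ∀ s k, 0 ≤ v s k) (hv0 : ∀ s, v s ≠ 0)
    (hN : 0 < N) (hP : Pol d κ v = ∅) :
    ∃ ρ : ℚ, κ < ρ ∧ 0 < ρ ∧ ∀ (y : Fin N → ℚ) (M : ℚ), (∀ s, M ≤ dotL (v s) y) →
      ρ * M ≤ dotL d y := by
  classical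
  let l : ι ⊕ Bool → ((Fin N → ℚ) × ℚ) →ₗ[ℚ] ℚ := Sum.elim
    (fun s => LinearMap.snd ℚ _ _ - (dotL (v s)).comp (LinearMap.fst ℚ _ _))
    (fun b => (if b then (1 : ℚ) else -1) • ((dotL d).comp (LinearMap.fst ℚ _ _) -
      κ • LinearMap.snd ℚ _ _))
  obtain ⟨w, hw, hf⟩ := farkas_fin l (LinearMap.snd ℚ (Fin N → ℚ) ℚ) (by
    rintro ⟨y, t⟩ hyt
    by_contra ht
    push Not at ht
    change 0 < t at ht
    have h1 : ∀ s, t - dotL (v s) y ≤ 0 := fun s => hyt (Sum.inl s)
    have h2 := hyt (Sum.inr true)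
    have h3 := hyt (Sum.inr false)
    simp only [l, Sum.elim_inr, if_true, LinearMap.smul_apply, LinearMap.sub_apply,
      LinearMap.comp_apply, LinearMap.fst_apply, LinearMap.snd_apply, smul_eq_mul] at h2 h3
    have h4 : t⁻¹ • y ∈ Pol d κ v := scale_pol ht (by
      simp at h3
      linarith) fun s => by linarith [h1 s]
    rw [hP] at h4
    exact h4)
  obtain ⟨c, hc⟩ : ∃ c, c = w (Sum.inr true) - w (Sum.inr false) := ⟨_, rfl⟩
  have hf' : ∀ (y : Fin N → ℚ) (t : ℚ), t = ∑ s, w (Sum.inl s) * (t - dotL (v s) y) +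
      c * (dotL d y - κ * t) := by
    intro y t
    have h1 := hf (y, t)
    rw [Fintype.sum_sum_type, Fintype.sum_bool] at h1
    simp only [l, Sum.elim_inr, Sum.elim_inl, if_true, LinearMap.smul_apply, LinearMap.sub_apply,
      LinearMap.comp_apply, LinearMap.fst_apply, LinearMap.snd_apply, smul_eq_mul] at h1
    conv_lhs => rw [h1]
    rw [hc]
    simp
    ring
  have h1 : 1 = ∑ s, w (Sum.inl s) - c * κ := by
    have h2 := hf' 0 1
    simp only [map_zero, sub_zero, mul_one, zero_sub] at h2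
    linarith
  have h2 : ∀ y, ∑ s, w (Sum.inl s) * dotL (v s) y = c * dotL d y := by
    intro y
    have h3 := hf' y 0
    simp only [zero_sub, mul_zero, sub_zero, mul_neg, Finset.sum_neg_distrib] at h3
    linarith
  have h3 : ∀ k, ∑ s, w (Sum.inl s) * v s k = c * d k := by
    intro k
    have h4 := h2 (Pi.single k 1)
    simpa only [dotL_single] using h4
  have hc0 : 0 ≤ c := by
    have h4 := h3 ⟨0, hN⟩
    have h5 : 0 ≤ ∑ s, w (Sum.inl s) * v s ⟨0, hN⟩ :=
      Finset.sum_nonneg fun s _ => mul_nonneg (hw _) (hv _ _)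
    rw [h4] at h5
    exact nonneg_of_mul_nonneg_left h5 (hd _)
  have hcpos : 0 < c := by
    rcases hc0.lt_or_eq with h | h
    · exact h
    exfalso
    have h4 : ∀ s, w (Sum.inl s) = 0 := by
      intro s
      obtain ⟨k, hk⟩ : ∃ k, v s k ≠ 0 := by
        by_contra hcon
        push Not at hcon
        exact hv0 s (funext hcon)
      have h5 := h3 k
      rw [← h, zero_mul] at h5
      have h6 := (Finset.sum_eq_zero_iff_of_nonneg fun s _ => mul_nonneg (hw _) (hv _ _)).1 h5 s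
        (Finset.mem_univ s)
      exact (mul_eq_zero.1 h6).resolve_right hk
    rw [Finset.sum_congr rfl fun s _ => h4 s, ← h] at h1
    simp at h1
  have hW : 0 < ∑ s, w (Sum.inl s) := by
    rcases (Finset.sum_nonneg fun s (_ : s ∈ Finset.univ) => hw (Sum.inl s)).lt_or_eq with h | h
    · exact h
    exfalso
    have h4 := (Finset.sum_eq_zero_iff_of_nonneg fun s _ => hw (Sum.inl s)).1 h.symm
    have h5 := h3 ⟨0, hN⟩
    rw [Finset.sum_congr rfl fun s hs => by rw [h4 s hs, zero_mul]] at h5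
    rw [Finset.sum_const_zero] at h5
    have := mul_pos hcpos (hd ⟨0, hN⟩)
    linarith
  refine ⟨(∑ s, w (Sum.inl s)) / c, ?_, div_pos hW hcpos, fun y M hM => ?_⟩
  · rw [lt_div_iff₀ hcpos]
    linarith
  · rw [div_mul_eq_mul_div, div_le_iff₀ hcpos, mul_comm (dotL d y), ← h2, Finset.sum_mul]
    exact Finset.sum_le_sum fun s _ => mul_le_mul_of_nonneg_left (hM s) (hw _)

/-- **The implicit equations.** -/
theorem lp_face (hd : ∀ k, 0 < d k) (hv : ∀ y : Fin N → ℚ, (∀ s, 0 ≤ dotL (v s) y) → ∀ k, 0 ≤ y k)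
    {u : Fin N → ℚ} (hu : ∀ y ∈ Pol d κ v, dotL u y = 1) :
    ∃ A0 : ℚ, 0 ≤ A0 ∧ ∀ (y : Fin N → ℚ) (m c B : ℚ), 0 ≤ m → 0 ≤ c → 0 ≤ B →
      (∀ s, m - c ≤ dotL (v s) y) → |dotL d y - κ * m| ≤ B → dotL u y ≤ m + A0 * (c + B) := by
  classical
  let l : ι ⊕ (Bool ⊕ Unit) → ((Fin N → ℚ) × ℚ) →ₗ[ℚ] ℚ := Sum.elim
    (fun s => LinearMap.snd ℚ _ _ - (dotL (v s)).comp (LinearMap.fst ℚ _ _))
    (Sum.elim (fun b => (if b then (1 : ℚ) else -1) • ((dotL d).comp (LinearMap.fst ℚ _ _) -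
      κ • LinearMap.snd ℚ _ _)) fun _ => - LinearMap.snd ℚ _ _)
  obtain ⟨w, hw, hf⟩ := farkas_fin l
    ((dotL u).comp (LinearMap.fst ℚ _ _) - LinearMap.snd ℚ (Fin N → ℚ) ℚ) (by
    rintro ⟨y, t⟩ hyt
    have h1 : ∀ s, t - dotL (v s) y ≤ 0 := fun s => hyt (Sum.inl s)
    have h2 := hyt (Sum.inr (Sum.inl true))
    have h3 := hyt (Sum.inr (Sum.inl false))
    have h4 : - t ≤ 0 := hyt (Sum.inr (Sum.inr ()))
    simp only [l, Sum.elim_inr, Sum.elim_inl, if_true, LinearMap.smul_apply, LinearMap.sub_apply,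
      LinearMap.comp_apply, LinearMap.fst_apply, LinearMap.snd_apply, smul_eq_mul] at h2 h3
    have h5 : dotL d y = κ * t := by
      simp at h3
      linarith
    change dotL u y - t ≤ 0
    rcases (show 0 ≤ t by linarith).lt_or_eq with ht | ht
    · have h6 := hu _ (scale_pol ht h5 fun s => by linarith [h1 s])
      rw [map_smul, smul_eq_mul] at h6
      have h7 : dotL u y = t := by
        field_simp at h6
        exact h6
      linarith
    · have h6 : ∀ k, 0 ≤ y k := hv y fun s => by linarith [h1 s]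
      rw [← ht, mul_zero, dotL_apply] at h5
      have h7 := (Finset.sum_eq_zero_iff_of_nonneg fun k _ => mul_nonneg (hd k).le (h6 k)).1 h5
      have h8 : y = 0 := by
        funext k
        exact (mul_eq_zero.1 (h7 k (Finset.mem_univ k))).resolve_left (hd k).ne'
      rw [h8, map_zero, ← ht]
      simp)
  obtain ⟨c1, hc1⟩ : ∃ c1, c1 = w (Sum.inr (Sum.inl true)) - w (Sum.inr (Sum.inl false)) := ⟨_, rfl⟩
  refine ⟨∑ s, w (Sum.inl s) + |c1|, add_nonneg (Finset.sum_nonneg fun s _ => hw _) (abs_nonneg _),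
    fun y m c B hm hc hB h1 h2 => ?_⟩
  have h3 := hf (y, m)
  rw [Fintype.sum_sum_type, Fintype.sum_sum_type, Fintype.sum_bool] at h3
  simp only [l, Sum.elim_inr, Sum.elim_inl, if_true, LinearMap.smul_apply, LinearMap.sub_apply,
    LinearMap.comp_apply, LinearMap.fst_apply, LinearMap.snd_apply, smul_eq_mul,
    LinearMap.neg_apply, Finset.univ_unique, Finset.sum_singleton] at h3
  have h4 : ∑ s, w (Sum.inl s) * (m - dotL (v s) y) ≤ (∑ s, w (Sum.inl s)) * c := by
    rw [Finset.sum_mul]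
    exact Finset.sum_le_sum fun s _ => mul_le_mul_of_nonneg_left (by linarith [h1 s]) (hw _)
  have h5 : c1 * (dotL d y - κ * m) ≤ |c1| * B := by
    calc c1 * (dotL d y - κ * m) ≤ |c1 * (dotL d y - κ * m)| := le_abs_self _
      _ = |c1| * |dotL d y - κ * m| := abs_mul _ _
      _ ≤ |c1| * B := mul_le_mul_of_nonneg_left h2 (abs_nonneg _)
  have h6 : 0 ≤ w (Sum.inr (Sum.inr ())) * m := mul_nonneg (hw _) hm
  have h7 : 0 ≤ (∑ s, w (Sum.inl s)) * B := mul_nonneg (Finset.sum_nonneg fun s _ => hw _) hB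
  have h8 : 0 ≤ |c1| * c := mul_nonneg (abs_nonneg _) hc
  have h9 : dotL u y - m = ∑ s, w (Sum.inl s) * (m - dotL (v s) y) + c1 * (dotL d y - κ * m) -
      w (Sum.inr (Sum.inr ())) * m := by
    rw [h3, hc1]
    simp
    ring
  nlinarith

/-- a point in the relative interior -/
theorem exists_relint (hne : (Pol d κ v).Nonempty) :
    ∃ y0 ∈ Pol d κ v, ∀ s, dotL (v s) y0 = 1 → ∀ y ∈ Pol d κ v, dotL (v s) y = 1 := by
  classical
  have key : ∀ F : Finset ι, ∃ y0 ∈ Pol d κ v, ∀ s ∈ F, dotL (v s) y0 = 1 →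
      ∀ y ∈ Pol d κ v, dotL (v s) y = 1 := by
    intro F
    induction F using Finset.induction_on with
    | empty =>
      obtain ⟨y0, hy0⟩ := hne
      exact ⟨y0, hy0, by simp⟩
    | insert s F hs ih =>
      obtain ⟨y0, hy0, h0⟩ := ih
      by_cases hall : ∀ y ∈ Pol d κ v, dotL (v s) y = 1
      · refine ⟨y0, hy0, fun t ht _ => ?_⟩
        rcases Finset.mem_insert.1 ht with rfl | ht
        · exact hall
        · exact h0 t ht (by assumption)
      · push Not at hall
        obtain ⟨y1, hy1, hne1⟩ := hall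
        have h1 : ∀ t, dotL (v t) ((1 / 2 : ℚ) • (y0 + y1)) =
            (dotL (v t) y0 + dotL (v t) y1) / 2 := by
          intro t
          rw [map_smul, map_add, smul_eq_mul]
          ring
        refine ⟨(1 / 2 : ℚ) • (y0 + y1), ⟨?_, fun t => ?_⟩, fun t ht ht1 => ?_⟩
        · rw [map_smul, map_add, hy0.1, hy1.1, smul_eq_mul]
          ring
        · rw [h1]
          have := hy0.2 t
          have := hy1.2 t
          linarith
        · rw [h1] at ht1
          have h2 := hy0.2 t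
          have h3 := hy1.2 t
          rcases Finset.mem_insert.1 ht with rfl | ht
          · exact absurd (by linarith : dotL (v t) y1 = 1) hne1
          · exact h0 t ht (by linarith)
  obtain ⟨y0, hy0, h0⟩ := key Finset.univ
  exact ⟨y0, hy0, fun s => h0 s (Finset.mem_univ s)⟩

/-- the direction space -/
theorem small {y0 z : Fin N → ℚ} (hy0 : y0 ∈ Pol d κ v)
    (h0 : ∀ s, dotL (v s) y0 = 1 → ∀ y ∈ Pol d κ v, dotL (v s) y = 1)
    (hz0 : dotL d z = 0) (hz : ∀ s, (∀ y ∈ Pol d κ v, dotL (v s) y = 1) → dotL (v s) z = 0) :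
    ∃ ε : ℚ, 0 < ε ∧ y0 + ε • z ∈ Pol d κ v := by
  classical
  have key : ∀ F : Finset ι, ∃ δ : ℚ, 0 < δ ∧ ∀ s ∈ F, ∀ ε : ℚ, 0 ≤ ε → ε ≤ δ →
      1 ≤ dotL (v s) (y0 + ε • z) := by
    intro F
    induction F using Finset.induction_on with
    | empty => exact ⟨1, one_pos, by simp⟩
    | insert s F hs ih =>
      obtain ⟨δ, hδ, h1⟩ := ih
      by_cases h2 : dotL (v s) y0 = 1
      · refine ⟨δ, hδ, fun t ht ε hε hεδ => ?_⟩
        rcases Finset.mem_insert.1 ht with rfl | ht
        · rw [map_add, map_smul, hz t (h0 t h2), h2]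
          simp
        · exact h1 t ht ε hε hεδ
      · have h3 : 0 < dotL (v s) y0 - 1 := by
          have h4 := hy0.2 s
          rcases h4.lt_or_eq with h | h
          · linarith
          · exact absurd h.symm h2
        have h4 : 0 < (dotL (v s) y0 - 1) / (1 + |dotL (v s) z|) := by positivity
        refine ⟨min δ ((dotL (v s) y0 - 1) / (1 + |dotL (v s) z|)), lt_min hδ h4,
          fun t ht ε hε hεδ => ?_⟩
        rcases Finset.mem_insert.1 ht with rfl | ht
        · have h5 := hεδ.trans (min_le_right _ _)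
          rw [le_div_iff₀ (by positivity)] at h5
          rw [map_add, map_smul, smul_eq_mul]
          have h6 : -|dotL (v t) z| ≤ dotL (v t) z := neg_abs_le _
          have h7 : ε * (-|dotL (v t) z|) ≤ ε * dotL (v t) z := mul_le_mul_of_nonneg_left h6 hε
          linarith
        · exact h1 t ht ε hε (hεδ.trans (min_le_left _ _))
  obtain ⟨δ, hδ, h1⟩ := key Finset.univ
  refine ⟨δ, hδ, ?_, fun s => h1 s (Finset.mem_univ s) δ hδ.le le_rfl⟩
  rw [map_add, map_smul, hz0, hy0.1, smul_zero, add_zero]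

/-- the direction space -/
def dirS (d : Fin N → ℚ) (κ : ℚ) (v : ι → Fin N → ℚ) : Submodule ℚ (Fin N → ℚ) where
  carrier := {z | dotL d z = 0 ∧ ∀ s, (∀ y ∈ Pol d κ v, dotL (v s) y = 1) → dotL (v s) z = 0}
  add_mem' := by
    rintro a b ⟨ha, ha'⟩ ⟨hb, hb'⟩
    refine ⟨by rw [map_add, ha, hb, add_zero], fun s hs => ?_⟩
    rw [map_add, ha' s hs, hb' s hs, add_zero]
  zero_mem' := ⟨map_zero _, fun s _ => map_zero _⟩
  smul_mem' := by
    rintro c a ⟨ha, ha'⟩
    refine ⟨by rw [map_smul, ha, smul_zero], fun s hs => ?_⟩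
    rw [map_smul, ha' s hs, smul_zero]

theorem vectorSpan_eq (hne : (Pol d κ v).Nonempty) :
    vectorSpan ℚ (Pol d κ v) = dirS d κ v := by
  apply le_antisymm
  · rw [vectorSpan_def, Submodule.span_le]
    rintro z ⟨y, hy, y', hy', rfl⟩
    refine ⟨?_, fun s hs => ?_⟩
    · dsimp only [vsub_eq_sub]
      rw [map_sub, hy.1, hy'.1, sub_self]
    · dsimp only [vsub_eq_sub]
      rw [map_sub, hs y hy, hs y' hy', sub_self]
  · rintro z ⟨hz0, hz⟩
    obtain ⟨y0, hy0, h0⟩ := exists_relint hne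
    obtain ⟨ε, hε, h1⟩ := small hy0 h0 hz0 hz
    have h2 : ε • z ∈ vectorSpan ℚ (Pol d κ v) := by
      have h3 := vsub_mem_vectorSpan ℚ h1 hy0
      simpa using h3
    have h3 := Submodule.smul_mem _ ε⁻¹ h2
    rwa [smul_smul, inv_mul_cancel₀ hε.ne', one_smul] at h3

/-- independent points -/
theorem exists_points (hne : (Pol d κ v).Nonempty) {h : ℕ}
    (hh : Module.finrank ℚ (vectorSpan ℚ (Pol d κ v)) = h) :
    ∃ (y0 : Fin N → ℚ) (y : Fin h → Fin N → ℚ), y0 ∈ Pol d κ v ∧ (∀ i, y i ∈ Pol d κ v) ∧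
      LinearIndependent ℚ fun i => y i - y0 := by
  rw [vectorSpan_eq hne] at hh
  obtain ⟨y0, hy0, h0⟩ := exists_relint hne
  let b := Module.finBasisOfFinrankEq ℚ (dirS d κ v) hh
  have h1 : ∀ i, ∃ ε : ℚ, 0 < ε ∧ y0 + ε • (b i : Fin N → ℚ) ∈ Pol d κ v := fun i =>
    small hy0 h0 (b i).2.1 (b i).2.2
  choose ε hε h1 using h1
  refine ⟨y0, fun i => y0 + ε i • (b i : Fin N → ℚ), hy0, h1, ?_⟩
  have h2 : (fun i => y0 + ε i • (b i : Fin N → ℚ) - y0) =
      (fun i => (Units.mk0 (ε i) (hε i).ne') • (b i : Fin N → ℚ)) := by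
    funext i
    rw [add_sub_cancel_left]
    rfl
  rw [h2]
  have h3 : LinearIndependent ℚ fun i => (b i : Fin N → ℚ) :=
    b.linearIndependent.map' (dirS d κ v).subtype (Submodule.ker_subtype _)
  exact h3.units_smul _

/-- **Coordinates.** -/
theorem exists_coords (U : Submodule ℚ (Fin N → ℚ)) :
    ∃ J : Finset (Fin N), J.card = Module.finrank ℚ U ∧ ∀ z ∈ U, (∀ k ∈ J, z k = 0) → z = 0 := by
  classical
  let c : Fin N → Module.Dual ℚ U := fun k => (LinearMap.proj k).comp U.subtype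
  obtain ⟨b, hb1, hb2, hb3⟩ := exists_linearIndependent ℚ (Set.range c)
  have htop : Submodule.span ℚ (Set.range c) = ⊤ := by
    rw [eq_top_iff]
    intro φ _
    obtain ⟨ψ, rfl⟩ := LinearMap.dualMap_surjective_of_injective U.injective_subtype φ
    have h1 : U.subtype.dualMap ψ = ∑ k, ψ (Pi.single k 1) • c k := by
      ext z
      rw [LinearMap.dualMap_apply, LinearMap.sum_apply]
      have h2 : (U.subtype z) = ∑ k, (z.1 k) • (Pi.single k (1 : ℚ) : Fin N → ℚ) := by
        funext i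
        rw [Finset.sum_apply, Finset.sum_eq_single i]
        · simp
        · intro k _ hk
          rw [Pi.smul_apply, Pi.single_eq_of_ne (Ne.symm hk), smul_zero]
        · intro h
          exact absurd (Finset.mem_univ _) h
      rw [h2, map_sum]
      refine Finset.sum_congr rfl fun k _ => ?_
      rw [map_smul, LinearMap.smul_apply, smul_eq_mul, smul_eq_mul, mul_comm]
      rfl
    rw [h1]
    exact Submodule.sum_mem _ fun k _ => Submodule.smul_mem _ _ (Submodule.subset_span ⟨k, rfl⟩)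
  rw [htop] at hb2
  have hfin : b.Finite := (Set.finite_range c).subset hb1
  haveI : Fintype b := hfin.fintype
  choose κ hκ using fun x : b => hb1 x.2
  have hκinj : Function.Injective κ := by
    intro x y hxy
    have h1 := hκ x
    rw [hxy, hκ] at h1
    exact Subtype.ext h1.symm
  refine ⟨Finset.univ.image κ, ?_, fun z hz hz0 => ?_⟩
  · rw [Finset.card_image_of_injective _ hκinj, Finset.card_univ]
    have h1 : Submodule.span ℚ (Set.range (Subtype.val : b → Module.Dual ℚ U)) = ⊤ := by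
      rw [Subtype.range_coe]
      exact hb2
    let B := Module.Basis.mk hb3 h1.ge
    rw [← Module.finrank_eq_card_basis B, Subspace.dual_finrank_eq]
  · have h1 : ∀ φ : Module.Dual ℚ U, φ ⟨z, hz⟩ = 0 := by
      intro φ
      have hφ : φ ∈ Submodule.span ℚ b := by
        rw [hb2]
        trivial
      induction hφ using Submodule.span_induction with
      | mem x hx =>
        have h2 : c (κ ⟨x, hx⟩) = x := hκ ⟨x, hx⟩
        rw [← h2]
        exact hz0 _ (Finset.mem_image_of_mem _ (Finset.mem_univ _))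
      | zero => rfl
      | add x y _ _ hx hy => rw [LinearMap.add_apply, hx, hy, add_zero]
      | smul a x _ hx => rw [LinearMap.smul_apply, hx, smul_zero]
    funext k
    exact h1 (c k)

/-- counting -/
theorem count {α I : Type} [Fintype I] [DecidableEq I] {J : Type} [Fintype J] [DecidableEq J]
    (S : Finset α) (φ : α → I → ℤ) (ψ : α → J → ℤ) (lo : ℤ) (C1 B : ℕ) {m : ℕ} (hm : 1 ≤ m)
    (hφ : ∀ a ∈ S, ∀ i, lo ≤ φ a i ∧ φ a i ≤ lo + C1)
    (hψ : ∀ a ∈ S, ∀ j, -(B : ℤ) ≤ ψ a j ∧ ψ a j ≤ B * m)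
    (hinj : ∀ a ∈ S, ∀ b ∈ S, φ a = φ b → ψ a = ψ b → a = b) :
    S.card ≤ (C1 + 1) ^ Fintype.card I * (2 * B + 1) ^ Fintype.card J * m ^ Fintype.card J := by
  classical
  let T : Finset ((I → ℤ) × (J → ℤ)) :=
    (Fintype.piFinset fun _ => Finset.Icc lo (lo + C1)) ×ˢ
      (Fintype.piFinset fun _ => Finset.Icc (-(B : ℤ)) (B * m))
  have h1 : S.card ≤ T.card := by
    refine Finset.card_le_card_of_injOn (fun a => (φ a, ψ a)) (fun a ha => ?_) fun a ha b hb hab => ?_
    · rw [Finset.mem_coe, Finset.mem_product, Fintype.mem_piFinset, Fintype.mem_piFinset]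
      exact ⟨fun i => Finset.mem_Icc.2 (hφ a ha i), fun j => Finset.mem_Icc.2 (hψ a ha j)⟩
    · have h2 := Prod.ext_iff.1 hab
      exact hinj a ha b hb h2.1 h2.2
  refine h1.trans ?_
  rw [Finset.card_product, Fintype.card_piFinset, Fintype.card_piFinset, Finset.prod_const,
    Finset.prod_const, Finset.card_univ, Finset.card_univ, Int.card_Icc, Int.card_Icc, mul_assoc,
    ← mul_pow]
  have h2 : (lo + C1 + 1 - lo).toNat = C1 + 1 := by omega
  rw [h2]
  refine Nat.mul_le_mul_left _ (Nat.pow_le_pow_left ?_ _)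
  have h3 : ((B : ℤ) * m + 1 - -(B : ℤ)) ≤ (((2 * B + 1) * m : ℕ) : ℤ) := by
    push_cast
    have h4 : (1 : ℤ) ≤ m := by exact_mod_cast hm
    have h5 : (B : ℤ) * 1 ≤ B * m := mul_le_mul_of_nonneg_left h4 (by positivity)
    nlinarith
  rw [Int.toNat_le]
  exact h3

end

end Pool.Agent.Y169.TH
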