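import Pool.Agent.Y169.CH.Div

/-!
Monomial places with integral weights of a rational function field in several variables.
-/

set_option autoImplicit false
set_option linter.overlappingInstances false
set_option linter.unusedSectionVars false

open FF MvPolynomial Pool.Agent.W603.LV Pool.Agent.W619.PQ Pool.Agent.TH122.AB

namespace Pool.Agent.Y169.TH

section

variable {k F : Type} [Field k] [Field F] [Algebra k F] {d : ℕ}

/-- the weight of an exponent -/
def zwt (lam : Fin d → ℤ) (m : Fin d →₀ ℕ) : ℤ := ∑ b, lam b * m b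

theorem zwt_add (lam : Fin d → ℤ) (m m' : Fin d →₀ ℕ) :
    zwt lam (m + m') = zwt lam m + zwt lam m' := by
  unfold zwt
  rw [← Finset.sum_add_distrib]
  refine Finset.sum_congr rfl fun b _ => ?_
  rw [Finsupp.add_apply]
  push_cast
  ring

/-- the order of a polynomial -/
noncomputable def zord (lam : Fin d → ℤ) (P : MvPolynomial (Fin d) k) : ℤ := by
  classical
  exact if h : P.support.Nonempty then P.support.inf' h (zwt lam) else 0

theorem zord_eq (lam : Fin d → ℤ) {P : MvPolynomial (Fin d) k} (h : P.support.Nonempty) :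
    zord lam P = P.support.inf' h (zwt lam) := by
  unfold zord
  rw [dif_pos h]

theorem zord_le (lam : Fin d → ℤ) {P : MvPolynomial (Fin d) k} {m : Fin d →₀ ℕ}
    (hm : m ∈ P.support) : zord lam P ≤ zwt lam m := by
  rw [zord_eq lam ⟨m, hm⟩]
  exact Finset.inf'_le _ hm

theorem le_zord (lam : Fin d → ℤ) {P : MvPolynomial (Fin d) k} (hP : P ≠ 0) {N : ℤ}
    (h : ∀ m ∈ P.support, N ≤ zwt lam m) : N ≤ zord lam P := by
  rw [zord_eq lam (support_nonempty.2 hP)]
  exact Finset.le_inf' _ _ h

theorem exists_zord (lam : Fin d → ℤ) {P : MvPolynomial (Fin d) k} (hP : P ≠ 0) :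
    ∃ m ∈ P.support, zord lam P = zwt lam m := by
  obtain ⟨m, hm, hmin⟩ := Finset.exists_min_image P.support (zwt lam) (support_nonempty.2 hP)
  exact ⟨m, hm, le_antisymm (zord_le lam hm) (le_zord lam hP hmin)⟩

theorem zord_add (lam : Fin d → ℤ) {P Q : MvPolynomial (Fin d) k}
    (hPQ : P + Q ≠ 0) : min (zord lam P) (zord lam Q) ≤ zord lam (P + Q) := by
  classical
  refine le_zord lam hPQ fun m hm => ?_
  rcases Finset.mem_union.1 (support_add hm) with h | h
  · exact (min_le_left _ _).trans (zord_le lam h)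
  · exact (min_le_right _ _).trans (zord_le lam h)

/-- the leading part -/
theorem exists_lead (lam : Fin d → ℤ) {P : MvPolynomial (Fin d) k} (hP : P ≠ 0) :
    ∃ P1 P2 : MvPolynomial (Fin d) k, P = P1 + P2 ∧ P1 ≠ 0 ∧
      (∀ m ∈ P1.support, zwt lam m = zord lam P) ∧ ∀ m ∈ P2.support, zord lam P < zwt lam m := by
  classical
  have hsum : P = ∑ m ∈ P.support.filter (fun m => zwt lam m = zord lam P), monomial m (coeff m P) +
      ∑ m ∈ P.support.filter (fun m => ¬ zwt lam m = zord lam P), monomial m (coeff m P) := by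
    rw [Finset.sum_filter_add_sum_filter_not]
    exact P.as_sum
  have hsupp : ∀ s : Finset (Fin d →₀ ℕ), ∀ a ∈ (∑ m ∈ s, monomial m (coeff m P)).support, a ∈ s := by
    intro s a ha
    have h1 := support_sum ha
    rw [Finset.mem_biUnion] at h1
    obtain ⟨m, hm, ham⟩ := h1
    have h2 := support_monomial_subset ham
    rw [Finset.mem_singleton] at h2
    rwa [h2]
  refine ⟨_, _, hsum, ?_, ?_, ?_⟩
  · obtain ⟨m, hm, h1⟩ := exists_zord lam hP
    intro h0
    have h2 := congrArg (coeff m) h0
    rw [coeff_sum, coeff_zero, Finset.sum_eq_single m] at h2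
    · rw [coeff_monomial, if_pos rfl] at h2
      exact mem_support_iff.1 hm h2
    · intro b _ hb
      rw [coeff_monomial, if_neg hb]
    · intro h
      exact absurd (Finset.mem_filter.2 ⟨hm, h1.symm⟩) h
  · intro m hm
    exact (Finset.mem_filter.1 (hsupp _ m hm)).2
  · intro m hm
    obtain ⟨h1, h2⟩ := Finset.mem_filter.1 (hsupp _ m hm)
    exact lt_of_le_of_ne (zord_le lam h1) (Ne.symm h2)

theorem zord_mul (lam : Fin d → ℤ) {P Q : MvPolynomial (Fin d) k} (hP : P ≠ 0) (hQ : Q ≠ 0) :
    zord lam (P * Q) = zord lam P + zord lam Q := by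
  classical
  obtain ⟨P1, P2, hP12, hP1, hPw, hPl⟩ := exists_lead lam hP
  obtain ⟨Q1, Q2, hQ12, hQ1, hQw, hQl⟩ := exists_lead lam hQ
  have hPl' : ∀ m ∈ P.support, zord lam P ≤ zwt lam m := fun m hm => zord_le lam hm
  have hQl' : ∀ m ∈ Q.support, zord lam Q ≤ zwt lam m := fun m hm => zord_le lam hm
  apply le_antisymm
  · obtain ⟨m, hm⟩ := support_nonempty.2 (mul_ne_zero hP1 hQ1)
    have hmw : zwt lam m = zord lam P + zord lam Q := by
      obtain ⟨a, ha, b, hb, rfl⟩ := Finset.mem_add.1 (support_mul _ _ hm)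
      rw [zwt_add, hPw a ha, hQw b hb]
    have h1 : coeff m (P * Q) = coeff m (P1 * Q1) := by
      have h2 : P * Q = P1 * Q1 + (P1 * Q2 + P2 * Q) := by
        conv_lhs => rw [hP12]
        conv_lhs => rw [add_mul]
        conv_lhs => rw [hQ12]
        rw [← hQ12]
        conv_lhs => rw [hQ12]
        conv_rhs => rw [hQ12]
        ring
      rw [h2, coeff_add, coeff_add]
      have h3 : ∀ A B : MvPolynomial (Fin d) k, (∀ a ∈ A.support, ∀ b ∈ B.support,
          zord lam P + zord lam Q < zwt lam (a + b)) → coeff m (A * B) = 0 := by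
        intro A B hAB
        by_contra hne
        obtain ⟨a, ha, b, hb, hab⟩ := Finset.mem_add.1 (support_mul _ _ (mem_support_iff.2 hne))
        have h4 := hAB a ha b hb
        rw [hab, hmw] at h4
        exact lt_irrefl _ h4
      rw [h3 P1 Q2 fun a ha b hb => by
          rw [zwt_add, hPw a ha]
          have := hQl b hb
          linarith,
        h3 P2 Q fun a ha b hb => by
          rw [zwt_add]
          have h5 := hPl a ha
          have h6 := hQl' b hb
          linarith]
      ring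
    have h2 : m ∈ (P * Q).support := by
      rw [mem_support_iff, h1]
      exact mem_support_iff.1 hm
    have h3 := zord_le lam h2
    rwa [hmw] at h3
  · refine le_zord lam (mul_ne_zero hP hQ) fun m hm => ?_
    obtain ⟨a, ha, b, hb, rfl⟩ := Finset.mem_add.1 (support_mul _ _ hm)
    rw [zwt_add]
    exact add_le_add (hPl' a ha) (hQl' b hb)

theorem zord_C (lam : Fin d → ℤ) {c : k} (hc : c ≠ 0) :
    zord lam (C c : MvPolynomial (Fin d) k) = 0 := by
  have hC : (C c : MvPolynomial (Fin d) k) ≠ 0 := by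
    rw [Ne, C_eq_zero]
    exact hc
  obtain ⟨m, hm, h⟩ := exists_zord lam hC
  rw [h]
  rw [C_apply] at hm
  have h2 := support_monomial_subset hm
  rw [Finset.mem_singleton] at h2
  rw [h2]
  unfold zwt
  simp

theorem zord_monomial (lam : Fin d → ℤ) (m : Fin d →₀ ℕ) :
    zord lam (monomial m (1 : k)) = zwt lam m := by
  classical
  have h0 : monomial m (1 : k) ≠ 0 := by
    rw [Ne, monomial_eq_zero]
    exact one_ne_zero
  obtain ⟨m', hm', h⟩ := exists_zord lam h0
  rw [h]
  rw [support_monomial, if_neg one_ne_zero, Finset.mem_singleton] at hm'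
  rw [hm']

theorem zord_X (lam : Fin d → ℤ) (b : Fin d) :
    zord lam (X b : MvPolynomial (Fin d) k) = lam b := by
  have h5 : (X b : MvPolynomial (Fin d) k) = monomial (Finsupp.single b 1) 1 := rfl
  rw [h5, zord_monomial]
  unfold zwt
  rw [Finset.sum_eq_single b]
  · simp
  · intro c _ hc
    rw [Finsupp.single_apply, if_neg (Ne.symm hc)]
    simp
  · intro h
    exact absurd (Finset.mem_univ _) h

/-- **The monomial place.** -/
theorem exists_zmono {X : Fin d → F} (h : Gens (k := k) X) (lam : Fin d → ℤ)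
    (hlam : ∃ a b : Fin d →₀ ℕ, zwt lam a = zwt lam b + 1) :
    ∃ v : Place k F, ∀ P : MvPolynomial (Fin d) k, P ≠ 0 → v.ord (aeval X P) = zord lam P := by
  obtain ⟨a, b, hab⟩ := hlam
  refine exists_place h (ν := fun P => zord lam P) ⟨?_, ?_, ?_⟩
    ⟨monomial a 1, monomial b 1, ?_, ?_, ?_⟩
  · intro P Q hP hQ
    exact zord_mul lam hP hQ
  · intro P Q _ _ hPQ
    exact zord_add lam hPQ
  · intro c hc
    exact zord_C lam hc
  · rw [Ne, monomial_eq_zero]
    exact one_ne_zero
  · rw [Ne, monomial_eq_zero]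
    exact one_ne_zero
  · rw [zord_monomial, zord_monomial, hab]

theorem zord_Xpd (lam : Fin d → ℤ) (b : Fin d) {P : MvPolynomial (Fin d) k}
    (h : X b * pderiv b P ≠ 0) : zord lam P ≤ zord lam (X b * pderiv b P) := by
  classical
  refine le_zord lam h fun m hm => ?_
  rw [mem_support_iff, coeff_X_mul'] at hm
  by_cases hbm : b ∈ m.support
  · rw [if_pos hbm, coeff_pderiv] at hm
    have h1 : m - Finsupp.single b 1 + Finsupp.single b 1 = m := by
      ext c
      rw [Finsupp.add_apply, Finsupp.tsub_apply, Finsupp.single_apply]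
      have hb0 : m b ≠ 0 := Finsupp.mem_support_iff.1 hbm
      by_cases hc : b = c
      · subst hc
        simp
        omega
      · simp [hc]
    have h2 : m ∈ P.support := by
      rw [h1] at hm
      exact mem_support_iff.2 (left_ne_zero_of_mul hm)
    exact zord_le lam h2
  · rw [if_neg hbm] at hm
    exact absurd rfl hm

end

section

variable {k : Type} [Field k] [CharZero k] {K0 K : Type} [Field K0] [Field K] [Algebra k K0]
  [Algebra k K] [Algebra K0 K] [IsScalarTower k K0 K] [FiniteDimensional K0 K] {n : ℕ}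

/-- the logarithmic coordinate vector fields at the monomial places -/
theorem log_zmono {X : Fin n → K0} (hX : Gens (k := k) X) (lam : Fin n → ℤ) {v : Place k K0}
    (hv : ∀ P : MvPolynomial (Fin n) k, P ≠ 0 → v.ord (aeval X P) = zord lam P)
    {w : Place k K} {e : ℕ} (h : Over w v e) {D : Derivation k K K} {b : Fin n}
    (hD : ∀ j, D (algebraMap K0 K (X j)) = if b = j then 1 else 0) (z : K) :
    w.Reg ((algebraMap K0 K (X b) • D) z / z) := by
  classical
  refine Pool.Agent.W619.Y.pLOG k K0 K v w e h _ (fun x => ?_) z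
  have h1 : ∀ R : MvPolynomial (Fin n) k,
      ((algebraMap K0 K (X b) • D) (algebraMap K0 K (aeval X R))) =
      algebraMap K0 K (aeval X (MvPolynomial.X b * pderiv b R)) := by
    intro R
    have h2 : D (algebraMap K0 K (aeval X R)) = algebraMap K0 K (aeval X (pderiv b R)) := by
      rw [← aeval_coe, ← aeval_coe]
      exact der_aeval hD R
    rw [Derivation.smul_apply, smul_eq_mul, h2, map_mul, map_mul, aeval_X]
  -- polynomials
  have h2 : ∀ R : MvPolynomial (Fin n) k, R ≠ 0 →
      w.Reg (algebraMap K0 K (aeval X (MvPolynomial.X b * pderiv b R)) /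
        algebraMap K0 K (aeval X R)) := by
    intro R hR
    rw [← map_div₀]
    refine h.reg.2 ?_
    by_cases h0 : MvPolynomial.X b * pderiv b R = 0
    · rw [h0, map_zero, zero_div]
      exact v.reg_zero
    · right
      rw [v.ord_div (hX.ne h0) (hX.ne hR), hv _ h0, hv _ hR]
      have := zord_Xpd lam b h0
      omega
  by_cases hx : x = 0
  · rw [hx, map_zero, map_zero, zero_div]
    exact w.reg_zero
  obtain ⟨P, Q, hQ, rfl⟩ := hX.gen x
  have hP : P ≠ 0 := by
    rintro rfl
    rw [map_zero, zero_div] at hx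
    exact hx rfl
  have hPK : algebraMap K0 K (aeval X P) ≠ 0 := by
    rw [Ne, map_eq_zero]
    exact hX.ne hP
  have hQK : algebraMap K0 K (aeval X Q) ≠ 0 := by
    rw [Ne, map_eq_zero]
    exact hX.ne hQ
  have h3 : ∀ D' : Derivation k K K, ∀ p q : K, p ≠ 0 → q ≠ 0 →
      D' (p / q) / (p / q) = D' p / p - D' q / q := by
    intro D' p q hp hq
    rw [div_eq_mul_inv p q, D'.leibniz, D'.leibniz_inv]
    simp only [smul_eq_mul]
    field_simp
    ring
  rw [map_div₀, h3 _ _ _ hPK hQK, h1, h1]
  exact Ge.sub (h2 P hP) (h2 Q hQ)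

end

section

variable {k : Type} [Field k] {K0 K : Type} [Field K0] [Field K] [Algebra k K0]
  [Algebra k K] [Algebra K0 K] [IsScalarTower k K0 K] {n : ℕ}

/-- the new exponents -/
noncomputable def zx (L : ℕ) (s : ℤ) (lam : Fin (n + 1) → ℤ) (b : Fin (n + 1)) (N : ℤ)
    (m : Fin n →₀ ℕ) : Fin (n + 1) →₀ ℕ :=
  Finsupp.equivFunOnFinite.symm
    (b.insertNth (α := fun _ => ℕ) (N - s * ∑ j, lam (b.succAbove j) * m j).toNat fun j => L * m j)

theorem zx_self (L : ℕ) (s : ℤ) (lam : Fin (n + 1) → ℤ) (b : Fin (n + 1)) (N : ℤ)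
    (m : Fin n →₀ ℕ) :
    zx L s lam b N m b = (N - s * ∑ j, lam (b.succAbove j) * m j).toNat := by
  unfold zx
  rw [Finsupp.coe_equivFunOnFinite_symm, Fin.insertNth_apply_same]

theorem zx_succ (L : ℕ) (s : ℤ) (lam : Fin (n + 1) → ℤ) (b : Fin (n + 1)) (N : ℤ)
    (m : Fin n →₀ ℕ) (j : Fin n) : zx L s lam b N m (b.succAbove j) = L * m j := by
  unfold zx
  rw [Finsupp.coe_equivFunOnFinite_symm, Fin.insertNth_apply_succAbove]

theorem zwt_zx {L : ℕ} {s : ℤ} (hs : s * s = 1) (lam : Fin (n + 1) → ℤ) {b : Fin (n + 1)}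
    (hb : lam b = s * L) {N : ℤ} {m : Fin n →₀ ℕ}
    (h : s * ∑ j, lam (b.succAbove j) * m j ≤ N) : zwt lam (zx L s lam b N m) = s * L * N := by
  unfold zwt
  rw [Fin.sum_univ_succAbove _ b, zx_self]
  simp only [zx_succ]
  rw [Int.toNat_of_nonneg (by linarith), hb]
  have h1 : ∑ j, lam (b.succAbove j) * ((L * m j : ℕ) : ℤ) =
      L * ∑ j, lam (b.succAbove j) * m j := by
    rw [Finset.mul_sum]
    refine Finset.sum_congr rfl fun j _ => ?_
    push_cast
    ring
  rw [h1]
  linear_combination (-(L : ℤ) * ∑ j, lam (b.succAbove j) * (m j : ℤ)) * hs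

theorem div_zmono {X : Fin (n + 1) → K0} (hX : Gens (k := k) X) (lam : Fin (n + 1) → ℤ)
    {b : Fin (n + 1)} (hb : lam b ≠ 0) {v : Place k K0}
    (hv : ∀ P : MvPolynomial (Fin (n + 1)) k, P ≠ 0 → v.ord (aeval X P) = zord lam P)
    {w : Place k K} {e : ℕ} (h : Over w v e) : IsDivisorial w (n + 1) := by
  classical
  obtain ⟨L, s, hL, hs, hbs⟩ : ∃ (L : ℕ) (s : ℤ), L ≠ 0 ∧ s * s = 1 ∧ lam b = s * L := by
    rcases lt_or_gt_of_ne hb with h | h
    · exact ⟨(lam b).natAbs, -1, by omega, by norm_num, by omega⟩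
    · exact ⟨(lam b).natAbs, 1, by omega, by norm_num, by omega⟩
  have hXne : ∀ c, X c ≠ 0 := by
    intro c
    have := hX.ne (X_ne_zero (R := k) c)
    rwa [aeval_X] at this
  obtain ⟨y, hy⟩ : ∃ y : Fin n → K0,
    y = fun j => X (b.succAbove j) ^ L * X b ^ (-(s * lam (b.succAbove j))) := ⟨_, rfl⟩
  refine ⟨fun j : Fin n => algebraMap K0 K (y j), fun R hR => ?_⟩
  change MvPolynomial (Fin n) k at R
  change aeval (fun j : Fin n => algebraMap K0 K (y j)) R ≠ 0 ∧
    w.ord (aeval (fun j : Fin n => algebraMap K0 K (y j)) R) = 0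
  have h0 : aeval (fun j : Fin n => algebraMap K0 K (y j)) R = algebraMap K0 K (aeval y R) :=
    MvPolynomial.aeval_algebraMap_apply K y R
  rw [h0, Ne, map_eq_zero, h.2]
  obtain ⟨N, hN⟩ : ∃ N : ℤ, ∀ m ∈ R.support, s * ∑ j, lam (b.succAbove j) * m j ≤ N := by
    refine ⟨∑ m ∈ R.support, |s * ∑ j, lam (b.succAbove j) * m j|, fun m hm => ?_⟩
    exact (le_abs_self _).trans (Finset.single_le_sum
      (f := fun m : Fin n →₀ ℕ => |s * ∑ j, lam (b.succAbove j) * m j|)
      (fun _ _ => abs_nonneg _) hm)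
  obtain ⟨P, hP⟩ : ∃ P : MvPolynomial (Fin (n + 1)) k,
    P = ∑ m ∈ R.support, monomial (zx L s lam b N m) (coeff m R) := ⟨_, rfl⟩
  have hinj : ∀ m m' : Fin n →₀ ℕ, zx L s lam b N m = zx L s lam b N m' → m = m' := by
    intro m m' hm
    ext j
    have h1 := congrArg (fun f => f (b.succAbove j)) hm
    simp only [zx_succ] at h1
    exact Nat.eq_of_mul_eq_mul_left (Nat.pos_of_ne_zero hL) h1
  have hcoeff : ∀ m ∈ R.support, coeff (zx L s lam b N m) P = coeff m R := by
    intro m hm
    rw [hP, coeff_sum, Finset.sum_eq_single m]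
    · rw [coeff_monomial, if_pos rfl]
    · intro m' _ hne
      rw [coeff_monomial, if_neg]
      intro h
      exact hne (hinj _ _ h)
    · intro h
      exact absurd hm h
  have hP0 : P ≠ 0 := by
    obtain ⟨m, hm⟩ := support_nonempty.2 hR
    intro h0
    have h1 := hcoeff m hm
    rw [h0, coeff_zero] at h1
    exact (mem_support_iff.1 hm) h1.symm
  have hmord : zord lam P = s * L * N := by
    obtain ⟨a, ha, h1⟩ := exists_zord lam hP0
    rw [h1]
    rw [hP] at ha
    have h2 := support_sum ha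
    rw [Finset.mem_biUnion] at h2
    obtain ⟨m, hm, ham⟩ := h2
    have h3 : a = zx L s lam b N m := by
      have := support_monomial_subset ham
      rwa [Finset.mem_singleton] at this
    rw [h3]
    exact zwt_zx hs lam hbs (hN m hm)
  have hPX : aeval X P = aeval y R * X b ^ N := by
    rw [hP, map_sum, aeval_def, eval₂_eq', Finset.sum_mul]
    refine Finset.sum_congr rfl fun m hm => ?_
    rw [aeval_monomial, mul_assoc]
    congr 1
    rw [Finsupp.prod_fintype _ _ fun i => pow_zero _, Fin.prod_univ_succAbove _ b, zx_self]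
    simp only [zx_succ, hy]
    have h1 : ∀ j, (X (b.succAbove j) ^ L * X b ^ (-(s * lam (b.succAbove j)))) ^ m j =
        X (b.succAbove j) ^ (L * m j) * X b ^ (-(s * (lam (b.succAbove j) * m j))) := by
      intro j
      rw [mul_pow, ← pow_mul, ← zpow_natCast (X b ^ _), ← zpow_mul]
      congr 2
      ring
    rw [Finset.prod_congr rfl fun j _ => h1 j, Finset.prod_mul_distrib]
    have h2 : ∏ j, X b ^ (-(s * (lam (b.succAbove j) * (m j : ℤ)))) =
        X b ^ (-(s * ∑ j, lam (b.succAbove j) * m j)) := by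
      rw [Finset.mul_sum, ← Finset.sum_neg_distrib]
      have h4 : ∀ t : Finset (Fin n), ∏ j ∈ t, X b ^ (-(s * (lam (b.succAbove j) * (m j : ℤ)))) =
          X b ^ (∑ j ∈ t, -(s * (lam (b.succAbove j) * (m j : ℤ)))) := by
        intro t
        induction t using Finset.induction_on with
        | empty => simp
        | insert a t ha ih => rw [Finset.prod_insert ha, Finset.sum_insert ha, ih,
            zpow_add₀ (hXne b)]
      exact h4 _
    rw [h2]
    have h3 : X b ^ (N - s * ∑ j, lam (b.succAbove j) * (m j : ℤ)).toNat =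
        X b ^ (-(s * ∑ j, lam (b.succAbove j) * (m j : ℤ))) * X b ^ N := by
      rw [← zpow_natCast, Int.toNat_of_nonneg (by linarith [hN m hm]), ← zpow_add₀ (hXne b)]
      congr 1
      ring
    rw [h3]
    ring
  have hne : aeval y R ≠ 0 := by
    intro h1
    rw [h1, zero_mul] at hPX
    exact hX.ne hP0 hPX
  refine ⟨hne, ?_⟩
  have h1 := hv P hP0
  have h2 : v.ord (X b) = lam b := by
    have h3 := hv (MvPolynomial.X b) (X_ne_zero _)
    rw [aeval_X] at h3
    rw [h3, zord_X]
  rw [hPX, v.ord_mul hne (zpow_ne_zero _ (hXne b)), v.ord_zpow, hmord, h2, hbs] at h1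
  have h3 : v.ord (aeval y R) = 0 := by linarith
  rw [h3, mul_zero]

end

end Pool.Agent.Y169.TH
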