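import Pool.Agent.Y169.TH.Arr
import Pool.Agent.Y169.TH.Zmon

/-!
The Jacobian determinant of the forms at the toric places.
-/

set_option autoImplicit false
set_option linter.overlappingInstances false
set_option linter.unusedSectionVars false
set_option maxHeartbeats 400000

open FF MvPolynomial Pool.Agent.W603.LV Pool.Agent.W602.GT Pool.Agent.W602.Cov
open Pool.Agent.W602.Cov.G Pool.Agent.TH152.AC
open Pool.Agent.TH122.AB Pool.Agent.Y169.CH

namespace Pool.Agent.Y169.TH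

variable {n : ℕ} {Φ : Arr n} {K : Type} [Field K] [Algebra ℂ K] {R : ℕ}

/-- the Jacobian determinant -/
noncomputable def jc (Φ : Arr n) : MvPolynomial (Fin (n + 1)) ℂ := (colS (grd Φ.F) some).det

theorem jc_eq (y : Fin (n + 1) → K) : aeval y (jc Φ) =
    (Matrix.of fun l k => aeval y (pderiv l (Φ.F k))).det := by
  unfold jc
  have h0 : aeval y (colS (grd Φ.F) some).det =
      (colS (fun i l => aeval y (grd Φ.F i l)) some).det :=
    map_colS (aeval y : MvPolynomial (Fin (n + 1)) ℂ →ₐ[ℂ] K).toRingHom (grd Φ.F) some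
  rw [h0]
  rfl

theorem jc_scale (y : Fin (n + 1) → K) (c : K) : aeval (fun l => c * y l) (jc Φ) =
    c ^ (∑ k, (Φ.dF k - 1)) * aeval y (jc Φ) := by
  rw [jc_eq, jc_eq, ← Finset.prod_pow_eq_pow_sum, ← Matrix.det_mul_row]
  congr 1
  ext l k
  rw [Matrix.of_apply, Matrix.of_apply, Matrix.of_apply]
  exact aeval_smul_form ((Φ.hh k).pderiv (i := l)) c y

theorem scale' {y : Fin (n + 1) → K} {x : Fin (n + 1) → K} {c : K} (hc : c ≠ 0)
    (hy : ∀ l, y l = x l / c) {D : ℕ} {H : MvPolynomial (Fin (n + 1)) ℂ} (hH : H.IsHomogeneous D) :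
    aeval x H = c ^ D * aeval y H := by
  rw [← aeval_smul_form hH]
  congr 2
  funext b
  rw [hy, mul_div_cancel₀ _ hc]

theorem Dat.zero {P : Place ℂ K} {x : Fin (n + 1) → K} {α : ℤ} {v : Fin (n + 1) → ℕ}
    (h : Dat P Φ.F Φ.dF x α v) : ∃ k, v k = 0 := by
  obtain ⟨j, y, hj, hy, hyne, hyj, hyreg, hFy, hFyne, hFyv⟩ := h.norm Φ.hh
  obtain ⟨k, hk0, hk⟩ := exists_unit_form P Φ.hS Φ.hh hyreg hyj
  refine ⟨k, ?_⟩
  rw [hFyv] at hk
  exact_mod_cast hk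

namespace Cv

variable (C : Cv Φ K R)

theorem exists_dat (P : Place ℂ K) :
    ∃ (α : ℤ) (v : Fin (n + 1) → ℕ), α ≤ 0 ∧ Dat P Φ.F Φ.dF C.x α v := by
  obtain ⟨l, hl⟩ := Finite.exists_min fun l => P.ord (C.x l)
  have hne := C.x_ne l
  obtain ⟨y, hy⟩ : ∃ y : Fin (n + 1) → K, y = fun b => C.x b / C.x l := ⟨_, rfl⟩
  have hyr : ∀ b, P.Reg (y b) := by
    intro b
    right
    rw [hy]
    dsimp only
    rw [P.ord_div (C.x_ne b) hne]
    linarith [hl b]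
  have hF : ∀ k, aeval C.x (Φ.F k) = C.x l ^ Φ.dF k * aeval y (Φ.F k) := fun k =>
    scale' hne (fun b => by rw [hy]) (Φ.hh k)
  have hFy : ∀ k, aeval y (Φ.F k) ≠ 0 := by
    intro k h0
    apply C.F_ne k
    rw [hF, h0, mul_zero]
  refine ⟨P.ord (C.x l), fun k => (P.ord (aeval y (Φ.F k))).toNat, ?_, C.x_ne, hl, ⟨l, rfl⟩,
    C.F_ne, fun k => ?_⟩
  · have h1 := hl 0
    rwa [C.hx0, P.ord_one] at h1
  · have h1 := (reg_aeval hyr (Φ.F k)).resolve_left (hFy k)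
    rw [Int.toNat_of_nonneg h1, hF, P.ord_mul (pow_ne_zero _ hne) (hFy k), P.ord_pow]

theorem ord_G {P : Place ℂ K} {α : ℤ} {v : Fin (n + 1) → ℕ} (h : Dat P Φ.F Φ.dF C.x α v)
    (k : Fin (n + 1)) : P.ord (aeval C.x (Φ.G k)) = Φ.E * α + Φ.ee k * v k := by
  rw [ae_G, P.ord_pow, h.hv]
  have h1 : ((Φ.dF k * Φ.ee k : ℕ) : ℤ) = Φ.E := by rw [Φ.d_ee]
  push_cast at h1
  rw [← h1]
  ring

theorem ord_Y {P : Place ℂ K} {α : ℤ} {v : Fin (n + 1) → ℕ} (h : Dat P Φ.F Φ.dF C.x α v)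
    (b : Fin n) : P.ord (C.Y b) = Φ.ee b.succ * v b.succ - Φ.ee 0 * v 0 := by
  unfold Y
  rw [P.ord_div (C.G_ne _) (C.G_ne _), C.ord_G h, C.ord_G h]
  ring

theorem toric_rel {P : Place ℂ K} {α : ℤ} {v : Fin (n + 1) → ℕ} (h : Dat P Φ.F Φ.dF C.x α v)
    {V : Fin (n + 1) → ℕ} (hV0 : ∃ k, V k = 0) {e : ℕ}
    (hY : ∀ b, P.ord (C.Y b) = e * ((V b.succ : ℤ) - V 0)) (k : Fin (n + 1)) :
    Φ.ee k * v k = e * V k := by
  have h1 : ∀ k, (Φ.ee k * v k : ℤ) - Φ.ee 0 * v 0 = e * V k - e * V 0 := by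
    intro k
    refine Fin.cases (by ring) (fun b => ?_) k
    have h2 := hY b
    rw [C.ord_Y h] at h2
    rw [h2]
    ring
  obtain ⟨k1, hk1⟩ := h.zero
  obtain ⟨k2, hk2⟩ := hV0
  have h2 := h1 k1
  have h3 := h1 k2
  rw [hk1] at h2
  rw [hk2] at h3
  have h4 : (0 : ℤ) ≤ e * V k1 := by positivity
  have h5 : (0 : ℤ) ≤ Φ.ee k2 * v k2 := by positivity
  have h6 := h1 k
  push_cast at h2 h3
  zify
  linarith

/-- **The Jacobian identity.** -/
theorem jac_id {dd : Fin n → Derivation ℂ K K}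
    (hdd : ∀ i j, dd i (C.Y j) = if i = j then C.Y j else 0) :
    (∏ k, (Φ.ee k : K)) * (bw dd C.x * aeval C.x (jc Φ)) = Φ.E * ∏ k, aeval C.x (Φ.F k) := by
  classical
  obtain ⟨s, hs⟩ : ∃ s : Fin (n + 1) → K, s = fun k => aeval C.x (Φ.F k) := ⟨_, rfl⟩
  obtain ⟨g, hg⟩ : ∃ g : Fin (n + 1) → K, g = fun k => aeval C.x (Φ.G k) := ⟨_, rfl⟩
  have hs0 : ∀ k, s k ≠ 0 := fun k => by rw [hs]; exact C.F_ne k
  have hg0 : ∀ k, g k ≠ 0 := fun k => by rw [hg]; exact C.G_ne k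
  have hgs : ∀ k, g k = s k ^ Φ.ee k := fun k => by rw [hg, hs]; exact ae_G _ _
  have h1 : bw dd C.x * aeval C.x (jc Φ) = (∏ k, s k) * (lm dd Φ.dF s).det := by
    rw [← wm_lm dd _ hs0, hs]
    exact bw_sel Φ.hh dd C.x some
  have h2 : (lm dd (fun _ => 1) g).det = 1 := by
    have h3 := bw_wm dd g
    rw [wm_lm dd _ hg0, Pool.Agent.W930.CG.bw_log bwa dd g hg0] at h3
    have h4 := mul_left_cancel₀ (Finset.prod_ne_zero_iff.2 fun k _ => hg0 k) h3
    rw [← h4]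
    have h5 : (Matrix.of fun i j : Fin n => dd i (g j.succ / g 0) / (g j.succ / g 0)) = 1 := by
      ext i j
      rw [Matrix.of_apply]
      have h6 : g j.succ / g 0 = C.Y j := by
        rw [hg]
        rfl
      rw [h6, hdd, Matrix.one_apply]
      split_ifs
      · exact div_self (C.Y_ne j)
      · rw [zero_div]
    rw [h5, Matrix.det_one]
  have h3 : (∏ k, (Φ.ee k : K)) * (lm dd Φ.dF s).det = Φ.E := by
    have h4 : (∏ i : Fin (n + 1), (Fin.cases (Φ.E : K) (fun _ => 1) i : K)) *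
        (lm dd (fun _ => 1) g).det = (Φ.E : K) := by
      rw [h2, mul_one, Fin.prod_univ_succ, Fin.cases_zero]
      simp
    rw [← h4, ← Matrix.det_mul_row, ← Matrix.det_mul_column]
    congr 1
    ext i k
    rw [Matrix.of_apply, Matrix.of_apply]
    refine Fin.cases ?_ (fun l => ?_) i
    · unfold lm
      rw [Matrix.of_apply, Matrix.of_apply, Fin.cases_zero, Fin.cases_zero, Fin.cases_zero,
        ← Φ.d_ee k]
      push_cast
      ring
    · unfold lm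
      rw [Matrix.of_apply, Matrix.of_apply, Fin.cases_succ, Fin.cases_succ, Fin.cases_succ,
        one_mul, hgs, (dd l).leibniz_pow, smul_eq_mul, nsmul_eq_mul]
      have hpos := Φ.ee_pos k
      obtain ⟨e, he⟩ : ∃ e, Φ.ee k = e + 1 := ⟨Φ.ee k - 1, by omega⟩
      rw [he, Nat.add_sub_cancel, pow_succ]
      have := hs0 k
      field_simp
  rw [h1, hs] at *
  calc (∏ k, (Φ.ee k : K)) * ((∏ k, aeval C.x (Φ.F k)) * (lm dd Φ.dF fun k =>
        aeval C.x (Φ.F k)).det)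
      = ((∏ k, (Φ.ee k : K)) * (lm dd Φ.dF fun k => aeval C.x (Φ.F k)).det) *
        ∏ k, aeval C.x (Φ.F k) := by ring
    _ = _ := by rw [h3]

theorem ee_unit (P : Place ℂ K) : (∏ k, (Φ.ee k : K)) ≠ 0 ∧ P.ord (∏ k, (Φ.ee k : K)) = 0 := by
  have h1 : (∏ k, (Φ.ee k : K)) = algebraMap ℂ K (∏ k, (Φ.ee k : ℂ)) := by
    rw [map_prod]
    exact Finset.prod_congr rfl fun k _ => by rw [map_natCast]
  have h2 : (∏ k, (Φ.ee k : ℂ)) ≠ 0 := Finset.prod_ne_zero_iff.2 fun k _ => by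
    exact_mod_cast (Φ.ee_pos k).ne'
  rw [h1]
  exact ⟨by rw [Ne, map_eq_zero]; exact h2, P.ord_const h2⟩

theorem E_unit (Φ : Arr n) (P : Place ℂ K) : (Φ.E : K) ≠ 0 ∧ P.ord (Φ.E : K) = 0 := by
  have h1 : (Φ.E : K) = algebraMap ℂ K (Φ.E : ℂ) := by rw [map_natCast]
  have h2 : (Φ.E : ℂ) ≠ 0 := by exact_mod_cast Φ.E_pos.ne'
  rw [h1]
  exact ⟨by rw [Ne, map_eq_zero]; exact h2, P.ord_const h2⟩

/-- the orders in the Jacobian identity -/
theorem ord_id {P : Place ℂ K} {α : ℤ} {v : Fin (n + 1) → ℕ} (h : Dat P Φ.F Φ.dF C.x α v)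
    {dd : Fin n → Derivation ℂ K K}
    (hdd : ∀ i j, dd i (C.Y j) = if i = j then C.Y j else 0) :
    bw dd C.x ≠ 0 ∧ aeval C.x (jc Φ) ≠ 0 ∧
      P.ord (bw dd C.x) + P.ord (aeval C.x (jc Φ)) = (∑ k, (Φ.dF k : ℤ)) * α + ∑ k, (v k : ℤ) ∧
      (∑ k, (Φ.dF k : ℤ) - (n + 1)) * α ≤ P.ord (aeval C.x (jc Φ)) := by
  have hid := C.jac_id hdd
  have hF : (∏ k, aeval C.x (Φ.F k)) ≠ 0 := Finset.prod_ne_zero_iff.2 fun k _ => C.F_ne k
  have hR : (Φ.E : K) * ∏ k, aeval C.x (Φ.F k) ≠ 0 := mul_ne_zero (E_unit Φ P).1 hF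
  have h1 := right_ne_zero_of_mul (hid ▸ hR)
  have h2 := left_ne_zero_of_mul h1
  have h3 := right_ne_zero_of_mul h1
  refine ⟨h2, h3, ?_, ?_⟩
  · have h4 := congrArg P.ord hid
    rw [P.ord_mul (ee_unit (Φ := Φ) P).1 h1, (ee_unit (Φ := Φ) P).2, P.ord_mul h2 h3,
      P.ord_mul (E_unit Φ P).1 hF, (E_unit Φ P).2, ord_prod' P Finset.univ _ fun k _ => C.F_ne k]
      at h4
    rw [zero_add, zero_add] at h4
    rw [h4, Finset.sum_mul, ← Finset.sum_add_distrib]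
    exact Finset.sum_congr rfl fun k _ => h.hv k
  · obtain ⟨j, y, hj, hy, hyne, hyj, hyreg, hFy, hFyne, hFyv⟩ := h.norm Φ.hh
    have hx : C.x = fun l => C.x j * y l := by
      funext l
      rw [hy, mul_div_cancel₀ _ (C.x_ne j)]
    have h4 := jc_scale (Φ := Φ) y (C.x j)
    rw [← hx] at h4
    have h5 : aeval y (jc Φ) ≠ 0 := by
      intro h0
      rw [h0, mul_zero] at h4
      exact h3 h4
    rw [h4, P.ord_mul (pow_ne_zero _ (C.x_ne j)) h5, P.ord_pow, hj]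
    have h6 := (reg_aeval hyreg (jc Φ)).resolve_left h5
    have h7 : ((∑ k, (Φ.dF k - 1) : ℕ) : ℤ) = ∑ k, (Φ.dF k : ℤ) - (n + 1) := by
      have h8 : ∑ k, (Φ.dF k - 1) + (n + 1) = ∑ k, Φ.dF k := by
        have h9 : ∑ k : Fin (n + 1), (Φ.dF k - 1 + 1) = ∑ k, Φ.dF k :=
          Finset.sum_congr rfl fun k _ => by
            have := Φ.hd k
            omega
        rw [← h9, Finset.sum_add_distrib]
        simp
      have h9 := congrArg (Nat.cast (R := ℤ)) h8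
      push_cast at h9 ⊢
      linarith
    rw [h7]
    linarith

/-- the Jacobian determinant is a unit at the toric places -/
theorem jc_unit {P : Place ℂ K} {α : ℤ} {v : Fin (n + 1) → ℕ} (h : Dat P Φ.F Φ.dF C.x α v)
    {dd : Fin n → Derivation ℂ K K}
    (hdd : ∀ i j, dd i (C.Y j) = if i = j then C.Y j else 0)
    (hlog : ∀ l z, P.Reg (dd l z / z)) {y : Fin (n + 1) → K} {j : Fin (n + 1)}
    (hj : P.ord (C.x j) = α) (hy : ∀ l, y l = C.x l / C.x j) :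
    aeval y (jc Φ) ≠ 0 ∧ P.ord (aeval y (jc Φ)) = 0 := by
  obtain ⟨h1, h2, h3, h4⟩ := C.ord_id h hdd
  have h5 := (bw_log_ord Φ.hS Φ.hh h hlog).resolve_left h1
  have hx : C.x = fun l => C.x j * y l := by
    funext l
    rw [hy, mul_div_cancel₀ _ (C.x_ne j)]
  have h6 := jc_scale (Φ := Φ) y (C.x j)
  rw [← hx] at h6
  have h7 : aeval y (jc Φ) ≠ 0 := by
    intro h0
    rw [h0, mul_zero] at h6
    exact h2 h6
  refine ⟨h7, ?_⟩
  have h8 := congrArg P.ord h6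
  rw [P.ord_mul (pow_ne_zero _ (C.x_ne j)) h7, P.ord_pow, hj] at h8
  have h9 : ((∑ k, (Φ.dF k - 1) : ℕ) : ℤ) = ∑ k, (Φ.dF k : ℤ) - (n + 1) := by
    have h8 : ∑ k, (Φ.dF k - 1) + (n + 1) = ∑ k, Φ.dF k := by
      have h9 : ∑ k : Fin (n + 1), (Φ.dF k - 1 + 1) = ∑ k, Φ.dF k :=
        Finset.sum_congr rfl fun k _ => by
          have := Φ.hd k
          omega
      rw [← h9, Finset.sum_add_distrib]
      simp
    have h9 := congrArg (Nat.cast (R := ℤ)) h8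
    push_cast at h9 ⊢
    linarith
  rw [h9] at h8
  have h10 : P.Reg (aeval y (jc Φ)) := by
    refine reg_aeval (fun l => ?_) _
    right
    rw [hy, P.ord_div (C.x_ne l) (C.x_ne j), hj]
    linarith [h.ha1 l]
  have h11 := h10.resolve_left h7
  nlinarith

end Cv

end Pool.Agent.Y169.TH
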