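import Pool.Agent.Y169.TH.Cnt
import Pool.Agent.Y169.CH.Top

/-!
The Kodaira dimension: sections from the points of the polyhedron.
-/

set_option autoImplicit false
set_option linter.overlappingInstances false
set_option linter.unusedSectionVars false
set_option maxHeartbeats 400000

open FF MvPolynomial Pool.Agent.W603.LV Pool.Agent.W602.GT Pool.Agent.W602.Cov
open Pool.Agent.W602.Cov.G Pool.Agent.TH152.AC Pool.Agent.TH122.AB Pool.Agent.Y169.CH

namespace Pool.Agent.Y169.TH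

section laurent

variable {K : Type} [Field K] [Algebra ℂ K] {n h : ℕ}

theorem prod_zpow_sum {K : Type} [Field K] {x : K} (hx : x ≠ 0) {ι : Type} (s : Finset ι)
    (f : ι → ℤ) : ∏ i ∈ s, x ^ f i = x ^ (∑ i ∈ s, f i) := by
  classical
  induction s using Finset.induction_on with
  | empty => simp
  | insert a t ha ih => rw [Finset.prod_insert ha, Finset.sum_insert ha, ih, zpow_add₀ hx]

/-- Laurent monomials with independent exponents -/
theorem laurent_ind {Y : Fin n → K} (hY : AlgebraicIndependent ℂ Y) (hY0 : ∀ j, Y j ≠ 0)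
    (ε : Fin h → Fin n → ℤ) (hε : LinearIndependent ℚ fun b => fun j => (ε b j : ℚ)) :
    AlgebraicIndependent ℂ fun b => ∏ j, Y j ^ ε b j := by
  classical
  rw [algebraicIndependent_iff]
  intro P hP
  by_contra hne
  obtain ⟨N, hN⟩ : ∃ N : ℤ, ∀ s ∈ P.support, ∀ j, 0 ≤ N + ∑ b, (s b : ℤ) * ε b j := by
    refine ⟨∑ s ∈ P.support, ∑ j, |∑ b, (s b : ℤ) * ε b j|, fun s hs j => ?_⟩
    have h1 : |∑ b, (s b : ℤ) * ε b j| ≤ ∑ j, |∑ b, (s b : ℤ) * ε b j| :=
      Finset.single_le_sum (f := fun j => |∑ b, (s b : ℤ) * ε b j|) (fun _ _ => abs_nonneg _)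
        (Finset.mem_univ j)
    have h2 : ∑ j, |∑ b, (s b : ℤ) * ε b j| ≤
        ∑ s ∈ P.support, ∑ j, |∑ b, (s b : ℤ) * ε b j| :=
      Finset.single_le_sum (f := fun s : Fin h →₀ ℕ => ∑ j, |∑ b, (s b : ℤ) * ε b j|)
        (fun _ _ => Finset.sum_nonneg fun _ _ => abs_nonneg _) hs
    have h3 := neg_abs_le (∑ b, (s b : ℤ) * ε b j)
    linarith
  obtain ⟨e, he⟩ : ∃ e : (Fin h →₀ ℕ) → (Fin n →₀ ℕ), e = fun s =>
    Finsupp.equivFunOnFinite.symm fun j => (N + ∑ b, (s b : ℤ) * ε b j).toNat := ⟨_, rfl⟩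
  have hes : ∀ s ∈ P.support, ∀ j, ((e s j : ℕ) : ℤ) = N + ∑ b, (s b : ℤ) * ε b j := by
    intro s hs j
    rw [he]
    exact Int.toNat_of_nonneg (hN s hs j)
  have hinj : ∀ s ∈ P.support, ∀ s' ∈ P.support, e s = e s' → s = s' := by
    intro s hs s' hs' hss
    have h1 : ∀ j, ∑ b, ((s b : ℚ) - s' b) * (ε b j : ℚ) = 0 := by
      intro j
      have h2 : ∑ b, (s b : ℤ) * ε b j = ∑ b, (s' b : ℤ) * ε b j := by
        have h3 := hes s hs j
        have h4 := hes s' hs' j
        rw [hss] at h3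
        linarith
      have h3 : (∑ b, (s b : ℚ) * (ε b j : ℚ)) = ∑ b, (s' b : ℚ) * (ε b j : ℚ) := by
        exact_mod_cast h2
      simp only [sub_mul]
      rw [Finset.sum_sub_distrib, h3, sub_self]
    have h2 := Fintype.linearIndependent_iff.1 hε (fun b => (s b : ℚ) - s' b) (by
      funext j
      rw [Finset.sum_apply]
      exact h1 j)
    ext b
    have h3 := h2 b
    rw [sub_eq_zero] at h3
    exact_mod_cast h3
  obtain ⟨Q, hQ⟩ : ∃ Q : MvPolynomial (Fin n) ℂ, Q = ∑ s ∈ P.support, monomial (e s) (coeff s P) :=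
    ⟨_, rfl⟩
  have hcoeff : ∀ s ∈ P.support, coeff (e s) Q = coeff s P := by
    intro s hs
    rw [hQ, coeff_sum, Finset.sum_eq_single s]
    · rw [coeff_monomial, if_pos rfl]
    · intro s' hs' hne
      rw [coeff_monomial, if_neg]
      intro h
      exact hne (hinj _ hs' _ hs h)
    · intro h
      exact absurd hs h
  have hQY : aeval Y Q = aeval (fun b => ∏ j, Y j ^ ε b j) P * ∏ j, Y j ^ N := by
    rw [hQ, map_sum, aeval_def (fun b => ∏ j, Y j ^ ε b j), eval₂_eq', Finset.sum_mul]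
    refine Finset.sum_congr rfl fun s hs => ?_
    rw [aeval_monomial, mul_assoc]
    congr 1
    rw [Finsupp.prod_fintype _ _ fun i => pow_zero _]
    have h1 : ∀ j, Y j ^ e s j = Y j ^ (∑ b, (s b : ℤ) * ε b j) * Y j ^ N := by
      intro j
      rw [← zpow_natCast, hes s hs, add_comm, zpow_add₀ (hY0 j)]
    rw [Finset.prod_congr rfl fun j _ => h1 j, Finset.prod_mul_distrib]
    congr 1
    have h2 : ∀ b, (∏ j, Y j ^ ε b j) ^ s b = ∏ j, Y j ^ ((s b : ℤ) * ε b j) := by
      intro b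
      rw [← Finset.prod_pow]
      refine Finset.prod_congr rfl fun j _ => ?_
      rw [← zpow_natCast, ← zpow_mul, mul_comm]
    rw [Finset.prod_congr rfl fun b _ => h2 b, Finset.prod_comm]
    exact Finset.prod_congr rfl fun j _ => (prod_zpow_sum (hY0 j) _ _).symm
  rw [hP, zero_mul] at hQY
  have hQ0 : Q = 0 := (injective_iff_map_eq_zero _).1 hY Q hQY
  obtain ⟨s, hs⟩ := support_nonempty.2 hne
  have h1 := hcoeff s hs
  rw [hQ0, coeff_zero] at h1
  exact (mem_support_iff.1 hs) h1.symm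

end laurent

/-- a common denominator -/
theorem exists_den {α : Type} [Fintype α] (r : α → ℚ) :
    ∃ T : ℕ, 0 < T ∧ ∀ a, ∃ z : ℤ, (T : ℚ) * r a = z := by
  classical
  refine ⟨∏ a, (r a).den, Finset.prod_pos fun a _ => (r a).den_pos, fun a => ?_⟩
  obtain ⟨c, hc⟩ : (r a).den ∣ ∏ a, (r a).den := Finset.dvd_prod_of_mem _ (Finset.mem_univ a)
  refine ⟨c * (r a).num, ?_⟩
  rw [hc]
  push_cast
  have h1 := Rat.mul_den_eq_num (r a)
  calc ((r a).den : ℚ) * c * r a = c * (r a * (r a).den) := by ring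
    _ = _ := by rw [h1]

namespace Cv

variable {d : ℕ} {Φ : Arr (d + 1)} {K : Type} [Field K] [Algebra ℂ K] {R : ℕ} (C : Cv Φ K R)

/-- the multiplicities are admissible -/
theorem adm {P : Place ℂ K} {α : ℤ} {v : Fin (d + 2) → ℕ} (h : Dat P Φ.F Φ.dF C.x α v)
    (hv : v ≠ 0) : Adm C.M C.a v := by
  refine ⟨hv, h.zero, fun j => ?_⟩
  have h1 := congrArg P.ord (C.hz j)
  rw [P.ord_pow, ord_prod' P Finset.univ _ fun k _ => pow_ne_zero _ (C.F_ne k)] at h1
  have h2 : ∀ k, P.ord (aeval C.x (Φ.F k) ^ C.a j k) =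
      ((C.a j k * Φ.dF k : ℕ) : ℤ) * α + ((C.a j k * v k : ℕ) : ℤ) := by
    intro k
    rw [P.ord_pow, h.hv]
    push_cast
    ring
  rw [Finset.sum_congr rfl fun k _ => h2 k, Finset.sum_add_distrib, ← Finset.sum_mul] at h1
  have h3 : (C.M j : ℤ) ∣ (∑ k, ((C.a j k * Φ.dF k : ℕ) : ℤ)) * α :=
    Dvd.dvd.mul_right (by exact_mod_cast C.hdiv j) _
  have h4 : (C.M j : ℤ) ∣ ∑ k, ((C.a j k * v k : ℕ) : ℤ) := by
    have h5 : ∑ k, ((C.a j k * v k : ℕ) : ℤ) = C.M j * P.ord (C.z j) -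
        (∑ k, ((C.a j k * Φ.dF k : ℕ) : ℤ)) * α := by
      rw [h1]
      ring
    rw [h5]
    exact dvd_sub (dvd_mul_right _ _) h3
  exact_mod_cast h4

/-- **The Kodaira dimension.** -/
theorem kod_ge (hne : (PiA C.M C.a Φ.dF).Nonempty) {h : ℕ}
    (hh : Module.finrank ℚ (vectorSpan ℚ (PiA C.M C.a Φ.dF)) = h) : AKod (d + 1) K h := by
  classical
  have hPi := PiA_eq (M := C.M) (a := C.a) (dF := Φ.dF) C.hM (by omega)
  obtain ⟨y0, y, hy0, hy, hlin⟩ : ∃ (y0 : Fin (d + 2) → ℚ) (y : Fin h → Fin (d + 2) → ℚ),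
      y0 ∈ PiA C.M C.a Φ.dF ∧ (∀ i, y i ∈ PiA C.M C.a Φ.dF) ∧
      LinearIndependent ℚ fun i => y i - y0 := by
    rw [hPi] at hne hh ⊢
    exact exists_points hne hh
  obtain ⟨p, hp⟩ : ∃ p : Fin (h + 1) → Fin (d + 2) → ℚ, p = Fin.cases y0 y := ⟨_, rfl⟩
  have hp0 : p 0 = y0 := by rw [hp]; rfl
  have hps : ∀ i : Fin h, p i.succ = y i := fun i => by rw [hp]; rfl
  have hpP : ∀ b, p b ∈ PiA C.M C.a Φ.dF := by
    intro b
    refine Fin.cases ?_ (fun i => ?_) b
    · rw [hp0]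
      exact hy0
    · rw [hps]
      exact hy i
  obtain ⟨T0, hT0, hden⟩ := exists_den fun x : Fin (h + 1) × Fin (d + 2) => p x.1 x.2
  choose w' hw' using hden
  obtain ⟨w, hw⟩ : ∃ w : Fin (h + 1) → Fin (d + 2) → ℤ, w = fun b k => w' (b, k) := ⟨_, rfl⟩
  obtain ⟨T, hT⟩ : ∃ T : ℕ, T = Φ.E * T0 := ⟨_, rfl⟩
  have hTpos : 0 < T := by
    rw [hT]
    exact Nat.mul_pos Φ.E_pos hT0
  have hwT : ∀ b k, ((Φ.E * w b k : ℤ) : ℚ) = T * p b k := by
    intro b k
    rw [hT, hw]
    push_cast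
    rw [mul_assoc, hw' (b, k)]
  -- the degrees
  have hdeg : ∀ b, ∑ k, (Φ.dF k : ℤ) * (Φ.E * w b k) = T * (∑ k, (Φ.dF k : ℤ) - (d + 2)) := by
    intro b
    have h1 : ((∑ k, (Φ.dF k : ℤ) * (Φ.E * w b k) : ℤ) : ℚ) =
        ((T * (∑ k, (Φ.dF k : ℤ) - (d + 2)) : ℤ) : ℚ) := by
      have h2 := (hpP b).1
      push_cast
      have h3 : ∀ k, (Φ.dF k : ℚ) * (Φ.E * w b k) = T * (Φ.dF k * p b k) := by
        intro k
        have h4 := hwT b k
        push_cast at h4
        rw [h4]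
        ring
      rw [Finset.sum_congr rfl fun k _ => h3 k, ← Finset.mul_sum, h2]
      push_cast
      ring
    exact_mod_cast h1
  obtain ⟨D0, hD0⟩ := exists_dual C.u_bas
  have hbw0 : bw D0 C.x = 1 := by
    rw [Pool.Agent.W930.CG.bw_one D0 C.x C.hx0]
    change (Matrix.of fun i j => D0 i (C.u j)).det = 1
    rw [hD0, Matrix.det_one]
  obtain ⟨Ex, hEx⟩ : ∃ Ex : Fin (h + 1) → K,
    Ex = fun b => ∏ k, aeval C.x (Φ.F k) ^ ((Φ.E : ℤ) * w b k - T) := ⟨_, rfl⟩
  have hExne : ∀ b, Ex b ≠ 0 := by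
    intro b
    rw [hEx]
    exact Finset.prod_ne_zero_iff.2 fun k _ => zpow_ne_zero _ (C.F_ne k)
  refine ⟨T, hTpos, fun b D => bw D C.x ^ T * Ex b, fun b => ⟨?_, ?_⟩, D0, ?_, ?_⟩
  · intro A D
    dsimp only
    rw [(bwa (d + 1) K).2.1 A D C.x, mul_pow]
    ring
  · intro P _ D hD
    obtain ⟨α, v, hα, hdat⟩ := C.exists_dat P
    have h1 := bw_reg_ord Φ.hS Φ.hh hdat hD
    have hEord : P.ord (Ex b) = ∑ k, ((Φ.E : ℤ) * w b k - T) * (Φ.dF k * α + v k) := by
      rw [hEx]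
      dsimp only
      rw [ord_prod' P Finset.univ _ fun k _ => zpow_ne_zero _ (C.F_ne k)]
      exact Finset.sum_congr rfl fun k _ => by rw [P.ord_zpow, hdat.hv]
    have h2 := (h1.pow T).mul (ge_ord P (Ex b))
    dsimp only
    rcases h2 with h2 | h2
    · exact Or.inl h2
    · right
      refine ⟨1, by simp, one_ne_zero, ?_⟩
      rw [P.ord_one, mul_zero]
      refine le_trans ?_ h2
      rw [hEord]
      have h3 : ∑ k, ((Φ.E : ℤ) * w b k - T) * (Φ.dF k * α + v k) =
          α * (∑ k, (Φ.dF k : ℤ) * (Φ.E * w b k)) + ∑ k, ((Φ.E : ℤ) * w b k) * v k -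
          T * α * ∑ k, (Φ.dF k : ℤ) - T * ∑ k, (v k : ℤ) := by
        rw [Finset.mul_sum, Finset.mul_sum, Finset.mul_sum, ← Finset.sum_add_distrib,
          ← Finset.sum_sub_distrib, ← Finset.sum_sub_distrib]
        exact Finset.sum_congr rfl fun k _ => by ring
      rw [h3, hdeg]
      have h4 : (T : ℤ) * (if v = 0 then 0 else 1) ≤ ∑ k, ((Φ.E : ℤ) * w b k) * v k := by
        by_cases hv : v = 0
        · rw [if_pos hv, hv]
          simp
        · rw [if_neg hv]
          have h5 := (hpP b).2 v (C.adm hdat hv)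
          have h6 : (T : ℚ) * 1 ≤ T * ∑ k, (v k : ℚ) * p b k :=
            mul_le_mul_of_nonneg_left h5 (by positivity)
          have h7 : (T : ℚ) * ∑ k, (v k : ℚ) * p b k =
              ((∑ k, ((Φ.E : ℤ) * w b k) * v k : ℤ) : ℚ) := by
            rw [Finset.mul_sum]
            push_cast
            refine Finset.sum_congr rfl fun k _ => ?_
            have h8 := hwT b k
            push_cast at h8
            rw [h8]
            ring
          rw [h7] at h6
          exact_mod_cast h6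
      push_cast
      nlinarith
  · dsimp only
    rw [hbw0, one_pow, one_mul]
    exact hExne 0
  · -- the ratios
    obtain ⟨δ, hδ⟩ : ∃ δ : Fin h → Fin (d + 2) → ℤ, δ = fun b k => w b.succ k - w 0 k := ⟨_, rfl⟩
    have hδsum : ∀ b, ∑ k, (Φ.dF k : ℤ) * δ b k = 0 := by
      intro b
      have h1 := hdeg b.succ
      have h2 := hdeg 0
      have h3 : (Φ.E : ℤ) * ∑ k, (Φ.dF k : ℤ) * δ b k = 0 := by
        have h4 : (Φ.E : ℤ) * ∑ k, (Φ.dF k : ℤ) * δ b k =
            ∑ k, (Φ.dF k : ℤ) * (Φ.E * w b.succ k) - ∑ k, (Φ.dF k : ℤ) * (Φ.E * w 0 k) := by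
          rw [Finset.mul_sum, ← Finset.sum_sub_distrib]
          refine Finset.sum_congr rfl fun k _ => ?_
          rw [hδ]
          ring
        rw [h4, h1, h2, sub_self]
      exact (mul_eq_zero.1 h3).resolve_left (by exact_mod_cast Φ.E_pos.ne')
    have hratio : ∀ b : Fin h, bw D0 C.x ^ T * Ex b.succ / (bw D0 C.x ^ T * Ex 0) =
        ∏ i : Fin (d + 1), C.Y i ^ ((Φ.dF i.succ : ℤ) * δ b i.succ) := by
      intro b
      rw [hbw0, one_pow, one_mul, one_mul, hEx]
      dsimp only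
      rw [← Finset.prod_div_distrib]
      have h1 : ∀ k, aeval C.x (Φ.F k) ^ ((Φ.E : ℤ) * w b.succ k - T) /
          aeval C.x (Φ.F k) ^ ((Φ.E : ℤ) * w 0 k - T) =
          aeval C.x (Φ.G k) ^ ((Φ.dF k : ℤ) * δ b k) := by
        intro k
        rw [← zpow_sub₀ (C.F_ne k), ae_G, ← zpow_natCast (aeval C.x (Φ.F k)), ← zpow_mul]
        congr 1
        have h2 : (Φ.dF k : ℤ) * Φ.ee k = Φ.E := by exact_mod_cast Φ.d_ee k
        rw [hδ, ← h2]
        ring
      rw [Finset.prod_congr rfl fun k _ => h1 k, Fin.prod_univ_succ]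
      have h2 : (Φ.dF 0 : ℤ) * δ b 0 = - ∑ i : Fin (d + 1), (Φ.dF i.succ : ℤ) * δ b i.succ := by
        have h3 := hδsum b
        rw [Fin.sum_univ_succ] at h3
        linarith
      rw [h2, ← Finset.sum_neg_distrib, ← prod_zpow_sum (C.G_ne 0), ← Finset.prod_mul_distrib]
      refine Finset.prod_congr rfl fun i _ => ?_
      unfold Y
      rw [div_zpow, zpow_neg, div_eq_mul_inv, mul_comm]
    change AlgebraicIndependent ℂ (fun b : Fin h =>
      bw D0 C.x ^ T * Ex b.succ / (bw D0 C.x ^ T * Ex 0))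
    rw [funext hratio]
    refine laurent_ind C.bas_Y.1 C.Y_ne _ ?_
    rw [Fintype.linearIndependent_iff]
    intro g hg
    have h1 : ∀ i : Fin (d + 1), ∑ b, g b * (δ b i.succ : ℚ) = 0 := by
      intro i
      have h2 := congrFun hg i
      rw [Finset.sum_apply] at h2
      simp only [Pi.smul_apply, smul_eq_mul, Pi.zero_apply] at h2
      push_cast at h2
      have h3 : (Φ.dF i.succ : ℚ) * ∑ b, g b * (δ b i.succ : ℚ) = 0 := by
        rw [Finset.mul_sum, ← h2]
        exact Finset.sum_congr rfl fun b _ => by ring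
      exact (mul_eq_zero.1 h3).resolve_left (by exact_mod_cast (Φ.hd _).ne')
    have h0 : ∑ b, g b * (δ b 0 : ℚ) = 0 := by
      have h3 : (Φ.dF 0 : ℚ) * ∑ b, g b * (δ b 0 : ℚ) = 0 := by
        have h4 : ∀ b, (Φ.dF 0 : ℚ) * δ b 0 = - ∑ i : Fin (d + 1), (Φ.dF i.succ : ℚ) * δ b i.succ := by
          intro b
          have h5 := hδsum b
          rw [Fin.sum_univ_succ] at h5
          have h6 : (((Φ.dF 0 : ℤ) * δ b 0 + ∑ i : Fin (d + 1), (Φ.dF i.succ : ℤ) * δ b i.succ : ℤ) : ℚ)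
              = 0 := by
            rw [h5]
            rfl
          push_cast at h6
          linarith
        calc (Φ.dF 0 : ℚ) * ∑ b, g b * (δ b 0 : ℚ) = ∑ b, g b * ((Φ.dF 0 : ℚ) * δ b 0) := by
              rw [Finset.mul_sum]
              exact Finset.sum_congr rfl fun b _ => by ring
          _ = ∑ b, ∑ i : Fin (d + 1), -((Φ.dF i.succ : ℚ) * (g b * δ b i.succ)) := by
              refine Finset.sum_congr rfl fun b _ => ?_
              rw [h4, mul_neg, Finset.mul_sum, ← Finset.sum_neg_distrib]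
              exact Finset.sum_congr rfl fun i _ => by ring
          _ = ∑ i : Fin (d + 1), -((Φ.dF i.succ : ℚ) * ∑ b, g b * δ b i.succ) := by
              rw [Finset.sum_comm]
              refine Finset.sum_congr rfl fun i _ => ?_
              rw [Finset.sum_neg_distrib, Finset.mul_sum]
          _ = 0 := by
              refine Finset.sum_eq_zero fun i _ => ?_
              rw [h1, mul_zero, neg_zero]
      exact (mul_eq_zero.1 h3).resolve_left (by exact_mod_cast (Φ.hd _).ne')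
    have h2 : ∀ k, ∑ b, g b * (δ b k : ℚ) = 0 := fun k => Fin.cases h0 h1 k
    refine Fintype.linearIndependent_iff.1 hlin g ?_
    funext k
    rw [Finset.sum_apply, Pi.zero_apply]
    have h3 : ∀ b, (T : ℚ) * ((y b - y0) k) = Φ.E * δ b k := by
      intro b
      have h4 := hwT b.succ k
      have h5 := hwT 0 k
      rw [hps] at h4
      rw [hp0] at h5
      rw [Pi.sub_apply, mul_sub, ← h4, ← h5, hδ]
      push_cast
      ring
    have h4 : (T : ℚ) * ∑ b, (g b • (y b - y0)) k = 0 := by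
      calc (T : ℚ) * ∑ b, (g b • (y b - y0)) k = ∑ b, g b * ((T : ℚ) * ((y b - y0) k)) := by
            rw [Finset.mul_sum]
            refine Finset.sum_congr rfl fun b _ => ?_
            rw [Pi.smul_apply, smul_eq_mul]
            ring
        _ = Φ.E * ∑ b, g b * δ b k := by
            rw [Finset.mul_sum]
            refine Finset.sum_congr rfl fun b _ => ?_
            rw [h3]
            ring
        _ = 0 := by rw [h2, mul_zero]
    exact (mul_eq_zero.1 h4).resolve_left (by exact_mod_cast hTpos.ne')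

end Cv

end Pool.Agent.Y169.TH
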