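import Pool.Agent.Y169.TH.Snc
import Pool.Agent.TH152.AC.Reg
import Pool.Agent.W930.CG.BWB

/-!
The order of the canonical form of projective space at a place, in terms of the multiplicities of
hypersurfaces with normal crossings.
-/

set_option autoImplicit false
set_option linter.overlappingInstances false
set_option linter.unusedSectionVars false

open FF MvPolynomial Pool.Agent.W603.LV Pool.Agent.W602.GT Pool.Agent.W602.Cov
open Pool.Agent.W602.Cov.G Pool.Agent.TH152.AC
open Pool.Agent.TH122.AB Pool.Agent.Y169.CH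

namespace Pool.Agent.Y169.TH

variable {n : ℕ} {K : Type} [Field K] [Algebra ℂ K]

/-- the matrix with the first row `ee j * s j` and the derivatives of the `s j` -/
noncomputable def wm (D : Fin n → Derivation ℂ K K) (ee : Fin (n + 1) → ℕ) (s : Fin (n + 1) → K) :
    Matrix (Fin (n + 1)) (Fin (n + 1)) K :=
  Matrix.of fun i j => (Fin.cases ((ee j : K) * s j) (fun l => D l (s j)) i : K)

theorem bw_wm (D : Fin n → Derivation ℂ K K) (s : Fin (n + 1) → K) :
    bw D s = (wm D (fun _ => 1) s).det := by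
  unfold bw wm
  congr 1
  ext i j
  refine Fin.cases ?_ (fun l => rfl) i
  rw [Matrix.of_apply, Matrix.of_apply]
  change s j = ((1 : ℕ) : K) * s j
  rw [Nat.cast_one, one_mul]

/-- the logarithmic matrix -/
noncomputable def lm (D : Fin n → Derivation ℂ K K) (ee : Fin (n + 1) → ℕ) (s : Fin (n + 1) → K) :
    Matrix (Fin (n + 1)) (Fin (n + 1)) K :=
  Matrix.of fun i j => (Fin.cases (ee j : K) (fun l => D l (s j) / s j) i : K)

theorem wm_lm (D : Fin n → Derivation ℂ K K) (ee : Fin (n + 1) → ℕ) {s : Fin (n + 1) → K}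
    (hs : ∀ j, s j ≠ 0) : (wm D ee s).det = (∏ j, s j) * (lm D ee s).det := by
  rw [← Matrix.det_mul_row]
  congr 1
  ext i j
  refine Fin.cases ?_ (fun l => ?_) i
  · unfold wm lm
    simp only [Matrix.of_apply]
    change (ee j : K) * s j = s j * (ee j : K)
    ring
  · unfold wm lm
    simp only [Matrix.of_apply]
    change D l (s j) = s j * (D l (s j) / s j)
    rw [mul_div_cancel₀ _ (hs j)]

theorem ge_nat (P : Place ℂ K) (m : ℕ) : Ge P 0 (m : K) := by
  have h := Ge.const (P := P) (m : ℂ)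
  rwa [map_natCast] at h

theorem lm_log (P : Place ℂ K) {D : Fin n → Derivation ℂ K K} (hD : ∀ l z, P.Reg (D l z / z))
    (ee : Fin (n + 1) → ℕ) (s : Fin (n + 1) → K) : Ge P 0 (lm D ee s).det := by
  refine Pool.Agent.W619.PQ.ge_det P _ fun i j => ?_
  refine Fin.cases ?_ (fun l => ?_) i
  · exact ge_nat P (ee j)
  · exact hD l (s j)

theorem lm_reg (P : Place ℂ K) {D : Fin n → Derivation ℂ K K} (hD : ∀ l, DerReg P (D l))
    (ee : Fin (n + 1) → ℕ) {s : Fin (n + 1) → K} (hs : ∀ j, s j ≠ 0) :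
    Ge P (-1) (lm D ee s).det := by
  rw [Matrix.det_succ_row_zero]
  refine Ge.sum _ _ fun j _ => ?_
  have h1 : Ge P (-1) ((lm D ee s).submatrix Fin.succ j.succAbove).det := by
    have h2 := Pool.Agent.W602.GT.det_log (P := P) D hD (fun b => s (j.succAbove b))
      fun b => hs _
    exact h2
  have h3 : Ge P 0 ((-1 : K) ^ (j : ℕ) * lm D ee s 0 j) := by
    have h4 : Ge P 0 ((-1 : K) ^ (j : ℕ)) := by
      have h5 := Ge.const (P := P) ((-1 : ℂ) ^ (j : ℕ))
      rw [map_pow, map_neg, map_one] at h5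
      exact h5
    have h6 : Ge P 0 (lm D ee s 0 j) := ge_nat P (ee j)
    simpa using h4.mul h6
  simpa using h3.mul h1

variable {F : Fin (n + 1) → MvPolynomial (Fin (n + 1)) ℂ}

/-- the new coordinates -/
noncomputable def sel (F : Fin (n + 1) → MvPolynomial (Fin (n + 1)) ℂ)
    (c : Fin (n + 1) → Option (Fin (n + 1))) (y : Fin (n + 1) → K) (b : Fin (n + 1)) : K :=
  (c b).elim (y b) fun k => aeval y (F k)

/-- their degrees -/
def seld (dF : Fin (n + 1) → ℕ) (c : Fin (n + 1) → Option (Fin (n + 1))) (b : Fin (n + 1)) : ℕ :=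
  (c b).elim 1 dF

theorem euler {dF : Fin (n + 1) → ℕ} (hh : ∀ k, (F k).IsHomogeneous (dF k)) (y : Fin (n + 1) → K)
    (k : Fin (n + 1)) : ∑ l, y l * aeval y (pderiv l (F k)) = (dF k : K) * aeval y (F k) := by
  have h := congrArg (aeval y) (hh k).sum_X_mul_pderiv
  rw [map_sum, map_nsmul, nsmul_eq_mul] at h
  rw [← h]
  exact Finset.sum_congr rfl fun l _ => by rw [map_mul, aeval_X]

/-- **The change of the coordinates.** -/
theorem bw_sel {dF : Fin (n + 1) → ℕ} (hh : ∀ k, (F k).IsHomogeneous (dF k))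
    (D : Fin n → Derivation ℂ K K) (y : Fin (n + 1) → K) (c : Fin (n + 1) → Option (Fin (n + 1))) :
    bw D y * aeval y (colS (grd F) c).det = (wm D (seld dF c) (sel F c y)).det := by
  have h0 : aeval y (colS (grd F) c).det = (colS (fun i l => aeval y (grd F i l)) c).det :=
    map_colS (aeval y : MvPolynomial (Fin (n + 1)) ℂ →ₐ[ℂ] K).toRingHom (grd F) c
  rw [bw_wm, h0, ← Matrix.det_mul]
  congr 1
  ext i b
  rw [Matrix.mul_apply]
  rcases hc : c b with _ | k
  · have h1 : ∀ l, colS (fun i l => aeval y (grd F i l)) c l b = if l = b then (1 : K) else 0 := by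
      intro l
      unfold colS
      rw [Matrix.of_apply, hc]
      rfl
    simp only [h1, mul_ite, mul_one, mul_zero, Finset.sum_ite_eq', Finset.mem_univ, if_true]
    refine Fin.cases ?_ (fun l => ?_) i
    · unfold wm sel seld
      simp only [Matrix.of_apply, Fin.cases_zero, hc, Option.elim_none]
    · unfold wm sel seld
      simp only [Matrix.of_apply, Fin.cases_succ, hc, Option.elim_none]
  · have h1 : ∀ l, colS (fun i l => aeval y (grd F i l)) c l b = aeval y (pderiv l (F k)) := by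
      intro l
      unfold colS
      rw [Matrix.of_apply, hc]
      rfl
    simp only [h1]
    refine Fin.cases ?_ (fun l => ?_) i
    · unfold wm sel seld
      simp only [Matrix.of_apply, Fin.cases_zero, hc, Option.elim_some]
      rw [← euler hh]
      exact Finset.sum_congr rfl fun l _ => by rw [Nat.cast_one, one_mul]
    · unfold wm sel seld
      simp only [Matrix.of_apply, Fin.cases_succ, hc, Option.elim_some]
      rw [Pool.Agent.Y169.CH.chain]
      exact Finset.sum_congr rfl fun l _ => by rw [mul_comm]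

/-- the data at a place -/
structure Dat (P : Place ℂ K) (F : Fin (n + 1) → MvPolynomial (Fin (n + 1)) ℂ)
    (dF : Fin (n + 1) → ℕ) (x : Fin (n + 1) → K) (α : ℤ) (v : Fin (n + 1) → ℕ) : Prop where
  hx : ∀ l, x l ≠ 0
  ha1 : ∀ l, α ≤ P.ord (x l)
  ha2 : ∃ j, P.ord (x j) = α
  hFx : ∀ k, aeval x (F k) ≠ 0
  hv : ∀ k, P.ord (aeval x (F k)) = dF k * α + v k

/-- the coordinates with minimal order zero -/
theorem Dat.norm {P : Place ℂ K} {dF : Fin (n + 1) → ℕ} (hh : ∀ k, (F k).IsHomogeneous (dF k))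
    {x : Fin (n + 1) → K} {α : ℤ} {v : Fin (n + 1) → ℕ} (h : Dat P F dF x α v) :
    ∃ (j : Fin (n + 1)) (y : Fin (n + 1) → K), P.ord (x j) = α ∧ (∀ l, y l = x l / x j) ∧
      (∀ l, y l ≠ 0) ∧ y j = 1 ∧ (∀ l, P.Reg (y l)) ∧
      (∀ k, aeval x (F k) = x j ^ dF k * aeval y (F k)) ∧ (∀ k, aeval y (F k) ≠ 0) ∧
      ∀ k, P.ord (aeval y (F k)) = v k := by
  obtain ⟨j, hj⟩ := h.ha2
  obtain ⟨y, hy⟩ : ∃ y : Fin (n + 1) → K, y = fun l => x l / x j := ⟨_, rfl⟩
  have hFy : ∀ k, aeval x (F k) = x j ^ dF k * aeval y (F k) := by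
    intro k
    rw [← aeval_smul_form (hh k)]
    congr 2
    funext l
    rw [hy]
    dsimp only
    rw [mul_div_cancel₀ _ (h.hx j)]
  have hne : ∀ k, aeval y (F k) ≠ 0 := by
    intro k h0
    apply h.hFx k
    rw [hFy, h0, mul_zero]
  refine ⟨j, y, hj, fun l => by rw [hy], fun l => by rw [hy]; exact div_ne_zero (h.hx l) (h.hx j),
    by rw [hy]; exact div_self (h.hx j), fun l => ?_, hFy, hne, fun k => ?_⟩
  · right
    rw [hy]
    dsimp only
    rw [P.ord_div (h.hx l) (h.hx j), hj]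
    linarith [h.ha1 l]
  · have h1 := h.hv k
    rw [hFy, P.ord_mul (pow_ne_zero _ (h.hx j)) (hne k), P.ord_pow, hj] at h1
    linarith

/-- the order in terms of the order of the logarithmic matrix -/
theorem ord_aux {P : Place ℂ K} (hS : Snc F) {dF : Fin (n + 1) → ℕ}
    (hh : ∀ k, (F k).IsHomogeneous (dF k)) {x : Fin (n + 1) → K} {α : ℤ} {v : Fin (n + 1) → ℕ}
    (h : Dat P F dF x α v) (D : Fin n → Derivation ℂ K K) {μ : ℤ}
    (hμ : ∀ (ee : Fin (n + 1) → ℕ) (s : Fin (n + 1) → K), (∀ j, s j ≠ 0) →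
      Ge P μ (lm D ee s).det) :
    Ge P (((n : ℤ) + 1) * α + ∑ k, (v k : ℤ) + μ) (bw D x) := by
  classical
  obtain ⟨j, y, hj, hy, hyne, hyj, hyreg, hFy, hFyne, hFyv⟩ := h.norm hh
  obtain ⟨J, hJ⟩ : ∃ J : Finset (Fin (n + 1)), J = Finset.univ.filter fun k => v k ≠ 0 := ⟨_, rfl⟩
  obtain ⟨c, hc, hc0, hc1⟩ := exists_unit_sel P hS hyreg hyj J fun k hk => by
    right
    rw [hFyv]
    rw [hJ, Finset.mem_filter] at hk
    have := hk.2
    omega
  have hsne : ∀ b, sel F c y b ≠ 0 := by
    intro b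
    unfold sel
    rcases c b with _ | k
    · exact hyne b
    · exact hFyne k
  have hs0 : ∀ b, 0 ≤ P.ord (sel F c y b) := by
    intro b
    unfold sel
    rcases c b with _ | k
    · exact (hyreg b).resolve_left (hyne b)
    · change 0 ≤ P.ord (aeval y (F k))
      rw [hFyv]
      positivity
  have hsum : ∑ k, (v k : ℤ) ≤ ∑ b, P.ord (sel F c y b) := by
    have h1 : ∀ k : J, ∃ b, c b = some k.1 := fun k => hc.1 k.1 k.2
    choose φ hφ using h1
    have hinj : Function.Injective φ := by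
      intro a b hab
      have h2 := hφ a
      rw [hab, hφ] at h2
      exact Subtype.ext (Option.some.inj h2).symm
    have h2 : ∑ k, (v k : ℤ) = ∑ k : J, (v k.1 : ℤ) := by
      rw [Finset.sum_coe_sort J fun k => (v k : ℤ), hJ, Finset.sum_filter]
      refine Finset.sum_congr rfl fun k _ => ?_
      by_cases hk : v k = 0
      · rw [if_neg (by simpa using hk), hk]
        rfl
      · rw [if_pos hk]
    have h3 : ∑ k : J, (v k.1 : ℤ) = ∑ b ∈ Finset.univ.image φ, P.ord (sel F c y b) := by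
      rw [Finset.sum_image fun a _ b _ hab => hinj hab]
      refine Finset.sum_congr rfl fun k _ => ?_
      unfold sel
      rw [hφ]
      exact (hFyv k.1).symm
    rw [h2, h3]
    exact Finset.sum_le_sum_of_subset_of_nonneg (Finset.subset_univ _) fun b _ _ => hs0 b
  have h1 : Ge P (∑ k, (v k : ℤ) + μ) (bw D y) := by
    have h2 : Ge P (∑ k, (v k : ℤ) + μ) (wm D (seld dF c) (sel F c y)).det := by
      rw [wm_lm D _ hsne]
      have h3 := (ge_ord P (∏ b, sel F c y b)).mul (hμ (seld dF c) (sel F c y) hsne)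
      rw [ord_prod' P Finset.univ _ fun b _ => hsne b] at h3
      exact h3.mono (by linarith)
    rw [← bw_sel hh] at h2
    rcases h2 with h2 | h2
    · exact Or.inl ((mul_eq_zero.1 h2).resolve_right hc0)
    · by_cases h0 : bw D y = 0
      · exact Or.inl h0
      · right
        rwa [P.ord_mul h0 hc0, hc1, add_zero] at h2
  have h2 : bw D x = x j ^ (n + 1) * bw D y := by
    rw [← (bwa n K).1 D (x j) y]
    congr 1
    funext l
    rw [hy, mul_div_cancel₀ _ (h.hx j)]
  rw [h2]
  have h3 : Ge P (((n : ℤ) + 1) * α) (x j ^ (n + 1)) := by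
    right
    rw [P.ord_pow, hj]
    push_cast
    exact le_rfl
  refine (h3.mul h1).mono (le_of_eq ?_)
  ring

/-- **The order on logarithmic vector fields.** -/
theorem bw_log_ord {P : Place ℂ K} (hS : Snc F) {dF : Fin (n + 1) → ℕ}
    (hh : ∀ k, (F k).IsHomogeneous (dF k)) {x : Fin (n + 1) → K} {α : ℤ} {v : Fin (n + 1) → ℕ}
    (h : Dat P F dF x α v) {D : Fin n → Derivation ℂ K K} (hD : ∀ l z, P.Reg (D l z / z)) :
    Ge P (((n : ℤ) + 1) * α + ∑ k, (v k : ℤ)) (bw D x) := by
  have h1 := ord_aux hS hh h D (μ := 0) fun ee s _ => lm_log P hD ee s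
  simpa using h1

/-- **The order on regular vector fields.** -/
theorem bw_reg_ord {P : Place ℂ K} (hS : Snc F) {dF : Fin (n + 1) → ℕ}
    (hh : ∀ k, (F k).IsHomogeneous (dF k)) {x : Fin (n + 1) → K} {α : ℤ} {v : Fin (n + 1) → ℕ}
    (h : Dat P F dF x α v) {D : Fin n → Derivation ℂ K K} (hD : ∀ l, DerReg P (D l)) :
    Ge P (((n : ℤ) + 1) * α + ∑ k, (v k : ℤ) - (if v = 0 then 0 else 1)) (bw D x) := by
  classical
  by_cases hv : v = 0
  · rw [if_pos hv]
    obtain ⟨j, y, hj, hy, hyne, hyj, hyreg, hFy, hFyne, hFyv⟩ := h.norm hh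
    have h1 : Ge P 0 (bw D y) := by
      refine Pool.Agent.W619.PQ.ge_det P _ fun i b => ?_
      refine Fin.cases ?_ (fun l => ?_) i
      · exact hyreg b
      · exact hD l _ (hyreg b)
    have h2 : bw D x = x j ^ (n + 1) * bw D y := by
      rw [← (bwa n K).1 D (x j) y]
      congr 1
      funext l
      rw [hy, mul_div_cancel₀ _ (h.hx j)]
    rw [h2]
    have h3 : Ge P (((n : ℤ) + 1) * α) (x j ^ (n + 1)) := by
      right
      rw [P.ord_pow, hj]
      push_cast
      exact le_rfl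
    refine (h3.mul h1).mono (le_of_eq ?_)
    rw [hv]
    simp
  · rw [if_neg hv]
    have h1 := ord_aux hS hh h D (μ := -1) fun ee s hs => lm_reg P hD ee hs
    exact h1

end Pool.Agent.Y169.TH
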