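import Pool.Agent.Y169.TH.Ram
import Pool.Agent.Y169.CH.Pcs

/-!
The order of the sections at the three kinds of places.
-/

set_option autoImplicit false
set_option linter.overlappingInstances false
set_option linter.unusedSectionVars false
set_option maxHeartbeats 400000

open FF MvPolynomial IntermediateField Pool.Agent.W603.LV Pool.Agent.W619.PQ
open Pool.Agent.W619.TW Pool.Agent.W602.GT Pool.Agent.TH122.AB Pool.Agent.TH756.PN
open Pool.Agent.Y169.CH Pool.Agent.W602.Cov.G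

namespace Pool.Agent.Y169.TH

namespace Cv

variable {d : ℕ} {Φ : Arr (d + 1)} {K : Type} [Field K] [Algebra ℂ K] {R : ℕ} (C : Cv Φ K R)

/-- the common factor -/
noncomputable def Lam (m : ℕ) : K := ∏ t, aeval C.x (Φ.F t) ^ m

theorem Lam_ne (m : ℕ) : C.Lam m ≠ 0 :=
  Finset.prod_ne_zero_iff.2 fun t _ => pow_ne_zero _ (C.F_ne t)

theorem ord_Lam (P : Place ℂ K) (m : ℕ) : P.ord (C.Lam m) = m * ∑ t, P.ord (aeval C.x (Φ.F t)) := by
  unfold Lam
  rw [ord_prod' P Finset.univ _ fun t _ => pow_ne_zero _ (C.F_ne t), Finset.mul_sum]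
  exact Finset.sum_congr rfl fun t _ => P.ord_pow _ _

section

variable {K0 : Type} [Field K0] [Algebra ℂ K0] [Algebra K0 K] [IsScalarTower ℂ K0 K]
  [FiniteDimensional K0 K]

theorem ae_K0 {X : Fin (d + 1) → K0} (hXu : ∀ j, algebraMap K0 K (X j) = C.u j)
    (P : MvPolynomial (Fin (d + 1)) ℂ) : aeval C.u P = algebraMap K0 K (aeval X P) := by
  have h3 : C.u = fun j => algebraMap K0 K (X j) := funext fun j => (hXu j).symm
  rw [h3]
  exact MvPolynomial.aeval_algebraMap_apply K X P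

theorem deh_F_ne (k : Fin (d + 2)) : deh (Φ.F k) ≠ 0 := deh_ne (Φ.hh k) (Φ.F_ne k)

/-- the places of the irreducible polynomials -/
theorem adic_f {X : Fin (d + 1) → K0} (hX : Gens (k := ℂ) X)
    (hXu : ∀ j, algebraMap K0 K (X j) = C.u j) {D : Fin (d + 1) → Derivation ℂ K K}
    (hD : ∀ i j, D i (C.u j) = if i = j then 1 else 0) {p : MvPolynomial (Fin (d + 1)) ℂ}
    (hp : Irreducible p) {v : Place ℂ K0} (hvp : v.ord (aeval X p) = 1)
    (hv : ∀ P, P ≠ 0 → 0 ≤ v.ord (aeval X P) ∧ (v.ord (aeval X P) = 0 ↔ ¬ p ∣ P))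
    {P : Place ℂ K} {e : ℕ} (h : Over P v e) (he : e = 1 ∨ ∃ t, p ∣ deh (Φ.F t)) {S' : Finset K}
    {m : ℕ} {ω : (Fin (d + 1) → Derivation ℂ K K) → K} (hω : Sec (d + 1) S' m ω) :
    ω D * C.Lam m = 0 ∨ ∃ s ∈ S', s ≠ 0 ∧ P.ord s ≤ P.ord (ω D * C.Lam m) := by
  classical
  have htr := trdeg_of_basis C.u_bas
  have hXK : (fun j => algebraMap K0 K (X j)) = C.u := funext hXu
  have hD' : ∀ i j, D i (algebraMap K0 K (X j)) = if i = j then 1 else 0 := fun i j => by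
    rw [hXu]
    exact hD i j
  obtain ⟨b, hb0, hb⟩ := exists_pderiv hp
  have hDb : D b (algebraMap K0 K (aeval X p)) = algebraMap K0 K (aeval X (pderiv b p)) := by
    rw [← Pool.Agent.TH122.AB.aeval_coe, ← Pool.Agent.TH122.AB.aeval_coe]
    exact der_aeval (hD' b) p
  have hjac := jacP htr C.fin_all' h (div_adic hX hp hv h) D C.u C.u_bas hD
    (fun i z hz => pres_adic hX hp hv h (hD' i) hz) hvp b (by
      rw [hDb, Ne, map_eq_zero]
      exact hX.ne hb0) (by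
      rw [hDb, h.2, (hv _ hb0).2.2 hb, mul_zero]) S' m ω Set.univ (fun _ => 0) (Set.mem_univ _) hω
  by_cases hz : ω D = 0
  · left
    rw [hz, zero_mul]
  obtain ⟨s, hs, hs0, hle⟩ := hjac.resolve_left hz
  right
  refine ⟨s, hs, hs0, ?_⟩
  have hle' : P.ord s ≤ P.ord (ω D) + m * ((e : ℤ) - 1) := by
    have h1 : (P.ord s : ℝ) ≤ P.ord (ω D) + m * ((e : ℝ) - 1) := by linarith
    exact_mod_cast h1
  rw [P.ord_mul hz (C.Lam_ne m), C.ord_Lam]
  have hF : ∀ t, P.ord (aeval C.x (Φ.F t)) = e * v.ord (aeval X (deh (Φ.F t))) := by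
    intro t
    rw [← C.ae_deh, C.ae_K0 hXu, h.2]
  have hnn : ∀ t, 0 ≤ P.ord (aeval C.x (Φ.F t)) := by
    intro t
    rw [hF]
    exact mul_nonneg (by positivity) (hv _ (deh_F_ne t)).1
  have he1 : (1 : ℤ) ≤ e := by exact_mod_cast h.1
  have key : (e : ℤ) - 1 ≤ ∑ t, P.ord (aeval C.x (Φ.F t)) := by
    rcases he with he | ⟨t, ht⟩
    · rw [he]
      simpa using Finset.sum_nonneg fun t _ => hnn t
    · have h2 : P.ord (aeval C.x (Φ.F t)) ≤ ∑ t, P.ord (aeval C.x (Φ.F t)) :=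
        Finset.single_le_sum (f := fun t => P.ord (aeval C.x (Φ.F t))) (fun t _ => hnn t)
          (Finset.mem_univ t)
      have h3 : 1 ≤ v.ord (aeval X (deh (Φ.F t))) := by
        have h4 : v.ord (aeval X (deh (Φ.F t))) ≠ 0 := fun h5 => (hv _ (deh_F_ne t)).2.1 h5 ht
        have h5 := (hv _ (deh_F_ne (Φ := Φ) t)).1
        omega
      rw [hF] at h2
      nlinarith
  have h4 : (m : ℤ) * ((e : ℤ) - 1) ≤ m * ∑ t, P.ord (aeval C.x (Φ.F t)) :=
    mul_le_mul_of_nonneg_left key (by positivity)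
  linarith

/-- the place at infinity -/
theorem inf_f {X : Fin (d + 1) → K0} (hX : Gens (k := ℂ) X)
    (hXu : ∀ j, algebraMap K0 K (X j) = C.u j) {D : Fin (d + 1) → Derivation ℂ K K}
    (hD : ∀ i j, D i (C.u j) = if i = j then 1 else 0) :
    ∃ v0 : Place ℂ K0, (∀ P : MvPolynomial (Fin (d + 1)) ℂ, P ≠ 0 →
        v0.ord (aeval X P) = - (degB Finset.univ P : ℤ)) ∧
      ∀ (P : Place ℂ K), Over P v0 1 → ∀ (S' : Finset K) (m : ℕ)
        (ω : (Fin (d + 1) → Derivation ℂ K K) → K), Sec (d + 1) S' m ω →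
        ω D * C.Lam m = 0 ∨ ∃ s ∈ S', s ≠ 0 ∧ P.ord s ≤
          P.ord (ω D * C.Lam m) + (∑ k, (Φ.dF k : ℤ) - (d + 2)) * m := by
  classical
  have hXK : (fun j => algebraMap K0 K (X j)) = C.u := funext hXu
  obtain ⟨v0, h1, h2⟩ := exists_infP hX (by rw [hXK]; exact C.u_bas) C.fin_all' (D := D)
    (fun i j => by rw [hXu]; exact hD i j) (B := Finset.univ) (c := 0) (Finset.mem_univ _)
  refine ⟨v0, h1, fun P hP S' m ω hω => ?_⟩
  have h3 := h2 P 1 hP S' m ω Set.univ (fun _ => 0) (Set.mem_univ _) hω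
  by_cases hz : ω D = 0
  · left
    rw [hz, zero_mul]
  obtain ⟨s, hs, hs0, hle⟩ := h3.resolve_left hz
  right
  refine ⟨s, hs, hs0, ?_⟩
  have hle' : P.ord s ≤ P.ord (ω D) - m * ((d : ℤ) + 2) := by
    have h4 : (P.ord s : ℝ) ≤ P.ord (ω D) - m * ((d : ℝ) + 2) := by
      rw [Finset.card_univ, Fintype.card_fin] at hle
      push_cast at hle
      linarith
    exact_mod_cast h4
  rw [P.ord_mul hz (C.Lam_ne m), C.ord_Lam]
  have h4 : ∀ s, P.ord (aeval C.x (Φ.F s)) = - (Φ.dF s : ℤ) := by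
    intro s
    rw [← C.ae_deh, C.ae_K0 hXu, hP.2, h1 _ (deh_F_ne s), degB_deh (Φ.hh s) (Φ.hI s)]
    simp
  rw [Finset.sum_congr rfl fun s _ => h4 s, Finset.sum_neg_distrib]
  linarith

/-- the test places -/
theorem test_f {Y : Fin (d + 1) → K0} (hY : Gens (k := ℂ) Y)
    (hYK : ∀ j, algebraMap K0 K (Y j) = C.Y j) {D : Fin (d + 1) → Derivation ℂ K K}
    (hD : ∀ i j, D i (C.u j) = if i = j then 1 else 0) {DY : Fin (d + 1) → Derivation ℂ K K}
    (hDY : ∀ i j, DY i (C.Y j) = if i = j then 1 else 0) (lam : Fin (d + 1) → ℤ)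
    {b0 : Fin (d + 1)} (hb0 : lam b0 ≠ 0) {v : Place ℂ K0}
    (hv : ∀ P : MvPolynomial (Fin (d + 1)) ℂ, P ≠ 0 → v.ord (aeval Y P) = zord lam P)
    {P : Place ℂ K} {e : ℕ} (h : Over P v e) {α : ℤ} {vv : Fin (d + 2) → ℕ}
    (hdat : Dat P Φ.F Φ.dF C.x α vv) (hα : α ≤ 0) {S' : Finset K} {m : ℕ}
    {ω : (Fin (d + 1) → Derivation ℂ K K) → K} (hω : Sec (d + 1) S' m ω) {q : ℕ}
    (hq : (∑ k, (Φ.dF k : ℤ) - (d + 2)) * m ≤ Φ.E * q) :
    ω D * C.Lam m / aeval C.x (Φ.G 0) ^ q = 0 ∨ ∃ s ∈ S', s ≠ 0 ∧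
      P.ord s + m - q * (Φ.ee 0 * vv 0) ≤ P.ord (ω D * C.Lam m / aeval C.x (Φ.G 0) ^ q) := by
  classical
  have htr := trdeg_of_basis C.u_bas
  have hdiv : IsDivisorial P (d + 1) := div_zmono hY lam hb0 hv h
  -- the logarithmic frame
  obtain ⟨dd, hdddef⟩ : ∃ dd : Fin (d + 1) → Derivation ℂ K K,
    dd = fun b => algebraMap K0 K (Y b) • DY b := ⟨_, rfl⟩
  have hlog : ∀ b z, P.Reg (dd b z / z) := fun b z => by
    rw [hdddef]
    exact log_zmono hY lam hv h (fun j => by rw [hYK]; exact hDY b j) z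
  have hdd : ∀ i j, dd i (C.Y j) = if i = j then C.Y j else 0 := by
    intro i j
    rw [hdddef]
    dsimp only
    rw [Derivation.smul_apply, hDY, smul_eq_mul, hYK]
    split_ifs with hij
    · rw [mul_one, hij]
    · rw [mul_zero]
  have hjac := jacL htr C.fin_all' hdiv dd hlog S' m ω hω
  obtain ⟨hB, hJ, hsum, hle0⟩ := C.ord_id hdat hdd
  -- the change of frames
  let J : Matrix (Fin (d + 1)) (Fin (d + 1)) K := Matrix.of fun a b => dd a (C.u b)
  have hDJ : dd = fun a => ∑ b, J a b • D b := by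
    funext a
    apply der_ext' C.u_bas
    intro j
    rw [sum_der, Finset.sum_eq_single j]
    · rw [hD, if_pos rfl, mul_one]
      rfl
    · intro b _ hb
      rw [hD, if_neg hb, mul_zero]
    · intro hj
      exact absurd (Finset.mem_univ _) hj
  have h1 : ω dd = bw dd C.x ^ m * ω D := by
    have h2 : bw dd C.x = J.det := Pool.Agent.W930.CG.bw_one dd C.x C.hx0
    rw [h2]
    conv_lhs => rw [hDJ]
    exact hω.1 J D
  by_cases hz : ω D = 0
  · left
    rw [hz, zero_mul, zero_div]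
  have hdd0 : ω dd ≠ 0 := by
    rw [h1]
    exact mul_ne_zero (pow_ne_zero _ hB) hz
  obtain ⟨s, hs, hs0, hle⟩ := hjac.resolve_left hdd0
  right
  refine ⟨s, hs, hs0, ?_⟩
  rw [h1, P.ord_mul (pow_ne_zero _ hB) hz, P.ord_pow] at hle
  rw [P.ord_div (mul_ne_zero hz (C.Lam_ne m)) (pow_ne_zero _ (C.G_ne 0)),
    P.ord_mul hz (C.Lam_ne m), C.ord_Lam, P.ord_pow, C.ord_G hdat]
  have h2 : ∑ t, P.ord (aeval C.x (Φ.F t)) = (∑ k, (Φ.dF k : ℤ)) * α + ∑ k, (vv k : ℤ) := by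
    rw [Finset.sum_mul, ← Finset.sum_add_distrib]
    exact Finset.sum_congr rfl fun k _ => hdat.hv k
  rw [h2]
  have h3 : P.ord (bw dd C.x) ≤ ((d : ℤ) + 2) * α + ∑ k, (vv k : ℤ) := by
    push_cast at hle0
    nlinarith
  have h4 : (m : ℤ) * P.ord (bw dd C.x) ≤ m * (((d : ℤ) + 2) * α + ∑ k, (vv k : ℤ)) :=
    mul_le_mul_of_nonneg_left h3 (by positivity)
  have h5 : 0 ≤ ((Φ.E : ℤ) * q - (∑ k, (Φ.dF k : ℤ) - (d + 2)) * m) * (- α) :=
    mul_nonneg (by linarith) (by linarith)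
  nlinarith

end

section

variable {K' : Type} [Field K'] [Algebra ℂ K'] [Algebra K K'] [IsScalarTower ℂ K K']

/-- the polynomials under the roots -/
noncomputable def pb (j : Fin R) : MvPolynomial (Fin (d + 1)) ℂ := ∏ k, deh (Φ.F k) ^ C.a j k

theorem pb_ne (j : Fin R) : C.pb j ≠ 0 :=
  Finset.prod_ne_zero_iff.2 fun k _ => pow_ne_zero _ (deh_F_ne k)

theorem ae_pb (j : Fin R) : aeval C.u (C.pb j) = C.z j ^ C.M j := by
  rw [C.hz, pb, map_prod]
  exact Finset.prod_congr rfl fun t _ => by rw [map_pow, C.ae_deh]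

/-- **No ramification.** -/
theorem ramG {G : Subgroup (K' ≃ₐ[ℂ] K')} [Finite G] [Algebra (fixedField G) K]
    [IsScalarTower ℂ (fixedField G) K] [IsScalarTower (fixedField G) K K']
    {X : Fin (d + 1) → fixedField G} (hXu : ∀ j, algebraMap (fixedField G) K (X j) = C.u j)
    {v : Place ℂ (fixedField G)} {w : Place ℂ K'} {e : ℕ} (hwv : Over w v e) {I : Subgroup G}
    (hI : ∀ g ∈ I, Inert w (g : K' ≃ₐ[ℂ] K')) (hcard : Nat.card I = e) {g : K' ≃ₐ[ℂ] K'}
    (hg : g ∈ G) {P : Place ℂ K} {e1 e2 : ℕ} (h1 : Over (w.comp g) P e1) (he : e = e1 * e2)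
    (hd : ∀ j, (C.M j : ℤ) ∣ v.ord (aeval X (C.pb j))) : e2 = 1 := by
  have hXK : ∀ j, algebraMap K K' (C.u j) = (X j : K') := by
    intro j
    rw [← hXu, ← IsScalarTower.algebraMap_apply (fixedField G) K K']
    rfl
  refine Nat.dvd_one.1 (ram_dvd hwv hI hcard hg h1 he C.z C.M C.hM C.z_ne
    (fun j => aeval X (C.pb j)) (fun j => ?_) (S := Set.range C.u) C.hgen ?_ (N := 1) fun j => ?_)
  · rw [← C.ae_pb, ← aeval_fix]
    have h2 : (fun j => (X j : K')) = fun j => algebraMap K K' (C.u j) := by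
      funext j
      rw [hXK]
    rw [h2]
    exact (MvPolynomial.aeval_algebraMap_apply K' C.u (C.pb j)).symm
  · rintro σ hσ - _ ⟨b, rfl⟩
    rw [hXK]
    exact (X b).2 ⟨σ, hσ⟩
  · simpa using hd j

end

end Cv

end Pool.Agent.Y169.TH
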