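import Pool.Agent.Y169.CH.Low

/-!
Hypersurfaces in projective space with normal crossings.
-/

set_option autoImplicit false
set_option linter.overlappingInstances false
set_option linter.unusedSectionVars false

open FF MvPolynomial Pool.Agent.W603.LV Pool.Agent.W602.GT Pool.Agent.W602.Cov
open Pool.Agent.TH122.AB Pool.Agent.Y169.CH

namespace Pool.Agent.Y169.TH

section exch

variable {N : ℕ} {k : Type} [Field k]

/-- the columns: basis vectors or the vectors `w` -/
def colS {R : Type} [Zero R] [One R] (w : Fin N → Fin N → R) (c : Fin N → Option (Fin N)) :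
    Matrix (Fin N) (Fin N) R :=
  Matrix.of fun l b => (c b).elim (if l = b then 1 else 0) fun k => w k l

/-- all the elements of `J`, and only these, are selected -/
def Cov (J : Finset (Fin N)) (c : Fin N → Option (Fin N)) : Prop :=
  (∀ k ∈ J, ∃ b, c b = some k) ∧ ∀ b k, c b = some k → k ∈ J

theorem exists_sel (J : Finset (Fin N)) (w : Fin N → Fin N → k)
    (hw : LinearIndependent k fun i : J => w i) (J' : Finset (Fin N)) (hJ : J' ⊆ J) :
    ∃ c, Cov J' c ∧ (colS w c).det ≠ 0 := by
  classical
  induction J' using Finset.induction_on with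
  | empty =>
    refine ⟨fun _ => none, ⟨by simp, by simp⟩, ?_⟩
    have h1 : colS w (fun _ => none) = 1 := by
      ext l b
      unfold colS
      rw [Matrix.of_apply, Matrix.one_apply]
      rfl
    rw [h1, Matrix.det_one]
    exact one_ne_zero
  | insert i J' hi ih =>
    obtain ⟨c, hc, hdet⟩ := ih fun x hx => hJ (Finset.mem_insert_of_mem hx)
    have hiJ : i ∈ J := hJ (Finset.mem_insert_self _ _)
    have hunit : IsUnit (colS w c).det := isUnit_iff_ne_zero.2 hdet
    obtain ⟨α, hα⟩ : ∃ α : Fin N → k, α = (colS w c)⁻¹.mulVec (w i) := ⟨_, rfl⟩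
    have hwα : ∀ l, w i l = ∑ b, α b • colS w c l b := by
      intro l
      have h1 : (colS w c).mulVec α = w i := by
        rw [hα, Matrix.mulVec_mulVec, Matrix.mul_nonsing_inv _ hunit, Matrix.one_mulVec]
      have h2 := congrFun h1 l
      rw [← h2, Matrix.mulVec, dotProduct]
      exact Finset.sum_congr rfl fun b _ => by rw [smul_eq_mul, mul_comm]
    obtain ⟨b, hb, hαb⟩ : ∃ b, c b = none ∧ α b ≠ 0 := by
      by_contra hcon
      push Not at hcon
      have h1 := hw.notMem_span_image (s := {j : J | j.1 ∈ J'}) (x := ⟨i, hiJ⟩) hi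
      apply h1
      have h2 : w i = ∑ b, α b • fun l => colS w c l b := by
        funext l
        rw [hwα l, Finset.sum_apply]
        rfl
      change w i ∈ _
      rw [h2]
      refine Submodule.sum_mem _ fun b _ => ?_
      rcases hcb : c b with _ | j
      · rw [hcon b hcb, zero_smul]
        exact Submodule.zero_mem _
      · refine Submodule.smul_mem _ _ (Submodule.subset_span ?_)
        have hjJ' := hc.2 b j hcb
        refine ⟨⟨j, hJ (Finset.mem_insert_of_mem hjJ')⟩, hjJ', ?_⟩
        funext l
        unfold colS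
        rw [Matrix.of_apply, hcb]
        rfl
    refine ⟨Function.update c b (some i), ⟨?_, ?_⟩, ?_⟩
    · intro j hj
      rcases Finset.mem_insert.1 hj with rfl | hj
      · exact ⟨b, Function.update_self _ _ _⟩
      · obtain ⟨b', hb'⟩ := hc.1 j hj
        refine ⟨b', ?_⟩
        rw [Function.update_of_ne]
        · exact hb'
        · rintro rfl
          rw [hb] at hb'
          exact absurd hb' (by simp)
    · intro b' j hb'
      by_cases hbb : b' = b
      · subst hbb
        rw [Function.update_self] at hb'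
        rw [Finset.mem_insert]
        left
        exact (Option.some.inj hb').symm
      · rw [Function.update_of_ne hbb] at hb'
        exact Finset.mem_insert_of_mem (hc.2 b' j hb')
    · have h1 : colS w (Function.update c b (some i)) =
          (colS w c).updateCol b fun l => ∑ b, α b • colS w c l b := by
        ext l b'
        rw [Matrix.updateCol_apply]
        by_cases hbb : b' = b
        · subst hbb
          rw [if_pos rfl, ← hwα]
          unfold colS
          rw [Matrix.of_apply, Function.update_self]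
          rfl
        · rw [if_neg hbb]
          unfold colS
          rw [Matrix.of_apply, Matrix.of_apply, Function.update_of_ne hbb]
      rw [h1, Matrix.det_updateCol_sum, smul_eq_mul]
      exact mul_ne_zero hαb hdet

end exch

variable {n : ℕ}

/-- the gradients of the forms which vanish at a point are linearly independent -/
def Snc (F : Fin (n + 1) → MvPolynomial (Fin (n + 1)) ℂ) : Prop :=
  ∀ x : Fin (n + 1) → ℂ, x ≠ 0 → LinearIndependent ℂ
    fun (k : {k // eval x (F k) = 0}) (l : Fin (n + 1)) => eval x (pderiv l (F k.1))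

/-- the gradients -/
noncomputable def grd (F : Fin (n + 1) → MvPolynomial (Fin (n + 1)) ℂ) (k l : Fin (n + 1)) :
    MvPolynomial (Fin (n + 1)) ℂ := pderiv l (F k)

/-- the selections -/
abbrev Sel (J : Finset (Fin (n + 1))) : Type := {c : Fin (n + 1) → Option (Fin (n + 1)) // Cov J c}

theorem map_colS {R S : Type} [CommRing R] [CommRing S] (f : R →+* S) {N : ℕ}
    (w : Fin N → Fin N → R) (c : Fin N → Option (Fin N)) :
    f (colS w c).det = (colS (fun i l => f (w i l)) c).det := by
  rw [RingHom.map_det]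
  congr 1
  ext l b
  unfold colS
  rw [RingHom.mapMatrix_apply, Matrix.map_apply, Matrix.of_apply, Matrix.of_apply]
  rcases c b with _ | j
  · change f (if l = b then 1 else 0) = if l = b then 1 else 0
    split_ifs
    · exact map_one f
    · exact map_zero f
  · rfl

variable {F : Fin (n + 1) → MvPolynomial (Fin (n + 1)) ℂ}

/-- **The certificate.** -/
theorem sel_cert (hS : Snc F) (J : Finset (Fin (n + 1))) (j : Fin (n + 1)) :
    ∃ (M : ℕ) (A : Fin (n + 1) → MvPolynomial (Fin (n + 1)) ℂ)
      (B : Sel J → MvPolynomial (Fin (n + 1)) ℂ),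
      X j ^ M = ∑ k ∈ J, A k * F k + ∑ᶠ c : Sel J, B c * (colS (grd F) c.1).det := by
  classical
  haveI : Fintype (Sel J) := Fintype.ofFinite _
  let gen : ({k // k ∈ J} ⊕ Sel J) → MvPolynomial (Fin (n + 1)) ℂ :=
    Sum.elim (fun k => F k.1) fun c => (colS (grd F) c.1).det
  obtain ⟨I, hI⟩ : ∃ I : Ideal (MvPolynomial (Fin (n + 1)) ℂ), I = Ideal.span (Set.range gen) :=
    ⟨_, rfl⟩
  have h1 : (X j : MvPolynomial (Fin (n + 1)) ℂ) ∈ vanishingIdeal ℂ (zeroLocus ℂ I) := by
    rw [mem_vanishingIdeal_iff]
    intro x hx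
    have hx0 : x = 0 := by
      by_contra hne
      rw [mem_zeroLocus_iff] at hx
      have hz : ∀ i, eval x (gen i) = 0 := fun i =>
        hx (gen i) (by rw [hI]; exact Ideal.subset_span ⟨i, rfl⟩)
      have hlin := hS x hne
      have hw : LinearIndependent ℂ
          fun (i : J) (l : Fin (n + 1)) => eval x (grd F i.1 l) :=
        hlin.comp (fun i : J => (⟨i.1, hz (Sum.inl i)⟩ : {k // eval x (F k) = 0}))
          (fun a b hab => Subtype.ext (by simpa using hab))
      obtain ⟨c, hc, hdet⟩ := exists_sel (k := ℂ) J (fun i l => eval x (grd F i l)) hw J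
        (Finset.Subset.refl J)
      apply hdet
      rw [← map_colS (eval x) (grd F) c]
      exact hz (Sum.inr ⟨c, hc⟩)
    rw [hx0, aeval_X]
    rfl
  rw [vanishingIdeal_zeroLocus_eq_radical] at h1
  obtain ⟨M, hM⟩ := h1
  rw [hI, Ideal.mem_span_range_iff_exists_fun] at hM
  obtain ⟨A, hA⟩ := hM
  refine ⟨M, fun k => if h : k ∈ J then A (Sum.inl ⟨k, h⟩) else 0, fun c => A (Sum.inr c), ?_⟩
  rw [← hA, Fintype.sum_sum_type, finsum_eq_sum_of_fintype]
  congr 1
  rw [← Finset.sum_coe_sort J]
  refine Finset.sum_congr rfl fun i _ => ?_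
  dsimp only
  rw [dif_pos i.2]
  rfl

/-- the forms have no common zero -/
theorem no_common (hS : Snc F) {dF : Fin (n + 1) → ℕ} (hh : ∀ k, (F k).IsHomogeneous (dF k))
    {x : Fin (n + 1) → ℂ} (hx : x ≠ 0) : ∃ k, eval x (F k) ≠ 0 := by
  classical
  by_contra hcon
  push Not at hcon
  have h1 := hS x hx
  have h2 : LinearIndependent ℂ fun (k l : Fin (n + 1)) => eval x (pderiv l (F k)) :=
    h1.comp (fun k => (⟨k, hcon k⟩ : {k // eval x (F k) = 0})) fun a b hab => by simpa using hab
  have h3 : IsUnit (Matrix.of fun (k l : Fin (n + 1)) => eval x (pderiv l (F k))) :=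
    Matrix.linearIndependent_rows_iff_isUnit.1 h2
  apply hx
  have h4 : (Matrix.of fun (k l : Fin (n + 1)) => eval x (pderiv l (F k))).mulVec x = 0 := by
    funext k
    have h5 := congrArg (eval x) (hh k).sum_X_mul_pderiv
    rw [map_sum, map_nsmul, hcon, smul_zero] at h5
    rw [Matrix.mulVec, dotProduct, Pi.zero_apply, ← h5]
    refine Finset.sum_congr rfl fun l _ => ?_
    rw [map_mul, eval_X, Matrix.of_apply, mul_comm]
  have h6 := congrArg (fun v => (Matrix.of fun (k l : Fin (n + 1)) =>
    eval x (pderiv l (F k)))⁻¹.mulVec v) h4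
  simp only [Matrix.mulVec_mulVec, Matrix.mulVec_zero] at h6
  rw [Matrix.nonsing_inv_mul _ ((Matrix.isUnit_iff_isUnit_det _).1 h3), Matrix.one_mulVec] at h6
  exact h6

theorem null_cert2 (hS : Snc F) {dF : Fin (n + 1) → ℕ} (hh : ∀ k, (F k).IsHomogeneous (dF k))
    (j : Fin (n + 1)) :
    ∃ (M : ℕ) (A : Fin (n + 1) → MvPolynomial (Fin (n + 1)) ℂ), X j ^ M = ∑ k, A k * F k := by
  classical
  obtain ⟨I, hI⟩ : ∃ I : Ideal (MvPolynomial (Fin (n + 1)) ℂ), I = Ideal.span (Set.range F) :=
    ⟨_, rfl⟩
  have h1 : (X j : MvPolynomial (Fin (n + 1)) ℂ) ∈ vanishingIdeal ℂ (zeroLocus ℂ I) := by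
    rw [mem_vanishingIdeal_iff]
    intro x hx
    have hx0 : x = 0 := by
      by_contra hne
      obtain ⟨k, hk⟩ := no_common hS hh hne
      apply hk
      rw [mem_zeroLocus_iff] at hx
      exact hx (F k) (by rw [hI]; exact Ideal.subset_span ⟨k, rfl⟩)
    rw [hx0, aeval_X]
    rfl
  rw [vanishingIdeal_zeroLocus_eq_radical] at h1
  obtain ⟨M, hM⟩ := h1
  rw [hI, Ideal.mem_span_range_iff_exists_fun] at hM
  obtain ⟨A, hA⟩ := hM
  exact ⟨M, A, hA.symm⟩

section

variable {K : Type} [Field K] [Algebra ℂ K]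

/-- a selection with a determinant which is a unit -/
theorem exists_unit_sel (P : Place ℂ K) (hS : Snc F) {y : Fin (n + 1) → K}
    (hy : ∀ l, P.Reg (y l)) {j : Fin (n + 1)} (hj : y j = 1) (J : Finset (Fin (n + 1)))
    (hJ : ∀ k ∈ J, Ge P 1 (aeval y (F k))) :
    ∃ c, Cov J c ∧ aeval y (colS (grd F) c).det ≠ 0 ∧
      P.ord (aeval y (colS (grd F) c).det) = 0 := by
  classical
  haveI : Fintype (Sel J) := Fintype.ofFinite _
  by_contra hcon
  push Not at hcon
  have h1 : ∀ c : Sel J, Ge P 1 (aeval y (colS (grd F) c.1).det) := by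
    intro c
    by_cases h0 : aeval y (colS (grd F) c.1).det = 0
    · exact Or.inl h0
    · right
      have h2 := hcon c.1 c.2 h0
      have h3 := (reg_aeval hy (colS (grd F) c.1).det).resolve_left h0
      omega
  obtain ⟨M, A, B, hA⟩ := sel_cert hS J j
  have h4 : Ge P 1 (1 : K) := by
    have h5 := congrArg (aeval y) hA
    rw [map_pow, aeval_X, hj, one_pow, map_add, map_sum, finsum_eq_sum_of_fintype, map_sum] at h5
    rw [h5]
    refine Ge.add (Ge.sum _ _ fun k hk => ?_) (Ge.sum _ _ fun c _ => ?_)
    · rw [map_mul]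
      have h6 := (show Ge P 0 (aeval y (A k)) from reg_aeval hy (A k)).mul (hJ k hk)
      simpa using h6
    · rw [map_mul]
      have h6 := (show Ge P 0 (aeval y (B c)) from reg_aeval hy (B c)).mul (h1 c)
      simpa using h6
  rcases h4 with h4 | h4
  · exact one_ne_zero h4
  · rw [P.ord_one] at h4
    omega

/-- one of the forms does not vanish -/
theorem exists_unit_form (P : Place ℂ K) (hS : Snc F) {dF : Fin (n + 1) → ℕ}
    (hh : ∀ k, (F k).IsHomogeneous (dF k)) {y : Fin (n + 1) → K}
    (hy : ∀ l, P.Reg (y l)) {j : Fin (n + 1)} (hj : y j = 1) :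
    ∃ k, aeval y (F k) ≠ 0 ∧ P.ord (aeval y (F k)) = 0 := by
  classical
  by_contra hcon
  push Not at hcon
  have h1 : ∀ k, Ge P 1 (aeval y (F k)) := by
    intro k
    by_cases h0 : aeval y (F k) = 0
    · exact Or.inl h0
    · right
      have h2 := hcon k h0
      have h3 := (reg_aeval hy (F k)).resolve_left h0
      omega
  obtain ⟨M, A, hA⟩ := null_cert2 hS hh j
  have h4 : Ge P 1 (1 : K) := by
    have h5 := congrArg (aeval y) hA
    rw [map_pow, aeval_X, hj, one_pow, map_sum] at h5
    rw [h5]
    refine Ge.sum _ _ fun k _ => ?_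
    rw [map_mul]
    have h6 := (show Ge P 0 (aeval y (A k)) from reg_aeval hy (A k)).mul (h1 k)
    simpa using h6
  rcases h4 with h4 | h4
  · exact one_ne_zero h4
  · rw [P.ord_one] at h4
    omega

end

end Pool.Agent.Y169.TH
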