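import Pool.Agent.Y169.CH.TwoB
import Pool.Agent.Y169.TH.Zmon

/-!
A bound for the dimension of spaces of functions with bounded poles, for two nested groups.
-/

set_option autoImplicit false
set_option linter.overlappingInstances false
set_option linter.unusedSectionVars false
set_option maxHeartbeats 1000000

open FF MvPolynomial IntermediateField Pool.Agent.W603.LV Pool.Agent.W619.PQ
open Pool.Agent.TH122.AB Pool.Agent.TH756.PN Pool.Agent.Y169.CH

namespace Pool.Agent.Y169.TH

section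

variable {k K : Type} [Field k] [CharZero k] [Field K] [Algebra k K] {d : ℕ}

/-- **The bound.** -/
theorem two_bound2 (G0 G : Subgroup (K ≃ₐ[k] K)) [Finite G0] [Finite G] (hGG : G ≤ G0)
    {X : Fin (d + 1) → fixedField G} (hX : Gens (k := k) X)
    (hZ : IsTranscendenceBasis k fun j => (X j : K))
    {Y : Fin (d + 1) → fixedField G0} (hY : Gens (k := k) Y)
    {γ : K} (hγ0 : γ ≠ 0) (hγ : ∀ g ∈ G, g γ = γ) (E : ℕ)
    (hint : ∀ (q : ℕ) (P : MvPolynomial (Fin (d + 1)) k), (∀ m ∈ P.support, ∑ b, m b ≤ E * q) →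
      IsIntegral (Algebra.adjoin k (Set.range fun j => (Y j : K)))
        (aeval (fun j => (X j : K)) P / γ ^ q))
    {v0 : Place k (fixedField G)}
    (hv0 : ∀ P : MvPolynomial (Fin (d + 1)) k, P ≠ 0 →
      v0.ord (aeval X P) = - (degB Finset.univ P : ℤ))
    {w0 : Place k K} {e0 : ℕ} (h0 : Over w0 v0 e0)
    {ι : Type} [Fintype ι] (lam : ι → Fin (d + 1) → ℤ) {vs : ι → Place k (fixedField G0)}
    (hvs : ∀ s, ∀ P : MvPolynomial (Fin (d + 1)) k, P ≠ 0 →
      (vs s).ord (aeval Y P) = zord (lam s) P)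
    {ws : ι → Place k K} {es : ι → ℕ} (hs : ∀ s, Over (ws s) (vs s) (es s)) (S : Finset K) :
    ∃ C c : ℕ, ∀ (j q : ℕ) (D : ℤ) (M : ι → ℤ) (N : ℕ) (f : Fin N → K),
      LinearIndependent k f → (∀ l, Fine G X (pw S j) (f l)) →
      (∀ l, ∀ g ∈ G, Ge w0 (- (e0 * D)) (g (f l))) → D + c * (j + 1) ≤ E * q →
      (∀ l s, ∀ g ∈ G0, Ge (ws s) (M s) (g (f l / γ ^ q))) →
      ∀ A : Finset (Fin (d + 1) →₀ ℕ),
        (∀ a, (∀ s, M s - c * (j + 1) ≤ es s * zwt (lam s) a) → a ∈ A) → N ≤ C * A.card := by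
  classical
  have hGal : IsGaloisGroup G0 (fixedField G0) K := isGaloisGroup_fixed G0
  have hfd : FiniteDimensional (fixedField G0) K := IsGaloisGroup.finiteDimensional G0 _ K
  have hfix : ∀ g ∈ G, ∀ z : fixedField G, g (z : K) = z := fun g hg z => z.2 ⟨g, hg⟩
  have hcK : CharZero K := charZero_of_injective_algebraMap (algebraMap k K).injective
  let Z : Fin (d + 1) → K := fun j => (X j : K)
  have hXZ : ∀ P : MvPolynomial (Fin (d + 1)) k, ((aeval X P : fixedField G) : K) = aeval Z P :=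
    fun P => (aeval_fix X P).symm
  let b := Module.finBasis (fixedField G0) K
  let δ := Module.finrank (fixedField G0) K
  -- a common denominator
  obtain ⟨Q, hQ0, hQS, hQb⟩ : ∃ Q : MvPolynomial (Fin (d + 1)) k, Q ≠ 0 ∧
      (∀ s ∈ S, ∀ g ∈ G, ∀ w : Place k K, (∀ P : MvPolynomial (Fin (d + 1)) k, w.Reg (aeval Z P)) →
        w.Reg (aeval Z Q * g s)) ∧
      (∀ i, ∀ g ∈ G, ∀ w : Place k K, (∀ P : MvPolynomial (Fin (d + 1)) k, w.Reg (aeval Z P)) →
        w.Reg (aeval Z Q * g (b i))) := by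
    have hGfin : (G : Set (K ≃ₐ[k] K)).Finite := Set.toFinite _
    let T : Finset K := (hGfin.toFinset.biUnion fun g => S.image fun s => g s) ∪
      (hGfin.toFinset.biUnion fun g => Finset.univ.image fun i => g (b i))
    choose q hq0 hq using fun z : K => exists_mult hZ z
    have hmain : ∀ z ∈ T, ∀ w : Place k K, (∀ P : MvPolynomial (Fin (d + 1)) k, w.Reg (aeval Z P)) →
        w.Reg (aeval Z (∏ t ∈ T, q t) * z) := by
      intro z hz w hw
      rw [← Finset.mul_prod_erase T q hz, map_mul, mul_comm (aeval Z (q z)), mul_assoc]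
      exact w.reg_mul (hw _) (reg_of_int hw (hq z))
    refine ⟨∏ t ∈ T, q t, Finset.prod_ne_zero_iff.2 fun t _ => hq0 t, ?_, ?_⟩
    · intro s hs g hg w hw
      refine hmain _ ?_ w hw
      refine Finset.mem_union_left _ (Finset.mem_biUnion.2 ⟨g, by simpa using hg, ?_⟩)
      exact Finset.mem_image_of_mem _ hs
    · intro i g hg w hw
      refine hmain _ ?_ w hw
      refine Finset.mem_union_right _ (Finset.mem_biUnion.2 ⟨g, by simpa using hg, ?_⟩)
      exact Finset.mem_image_of_mem _ (Finset.mem_univ i)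
  have hQK : aeval Z Q ≠ 0 := by
    rw [← hXZ]
    have := hX.ne hQ0
    simpa using this
  have hgQ : ∀ g ∈ G, g (aeval Z Q) = aeval Z Q := by
    intro g hg
    rw [← hXZ]
    exact hfix g hg _
  -- the constants at the places
  obtain ⟨c0, hc0, hc0'⟩ : ∃ c0 : ℕ, (∀ g ∈ G, Ge w0 (- (c0 : ℤ)) (g (aeval Z Q)) ∧
      ∀ i, Ge w0 (- (c0 : ℤ)) (g (b i))) ∧
      ∀ s, ∀ g ∈ G0, Ge (ws s) (- (c0 : ℤ)) (g (aeval Z Q)) ∧
      ∀ i, Ge (ws s) (- (c0 : ℤ)) (g (b i)) := by
    have hG0fin : (G0 : Set (K ≃ₐ[k] K)).Finite := Set.toFinite _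
    let T : Finset K := hG0fin.toFinset.biUnion fun g =>
      insert (g (aeval Z Q)) (Finset.univ.image fun i => g (b i))
    let W : Finset (Place k K) := {w0} ∪ Finset.univ.image ws
    obtain ⟨c0, hc0⟩ : ∃ c0 : ℕ, c0 = (∑ w ∈ W, ∑ z ∈ T, |w.ord z|).toNat := ⟨_, rfl⟩
    have hmain : ∀ w ∈ W, ∀ z ∈ T, Ge w (- (c0 : ℤ)) z := by
      intro w hw z hz
      right
      have h1 : |w.ord z| ≤ ∑ z ∈ T, |w.ord z| :=
        Finset.single_le_sum (f := fun z => |w.ord z|) (fun _ _ => abs_nonneg _) hz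
      have h2 : ∑ z ∈ T, |w.ord z| ≤ ∑ w ∈ W, ∑ z ∈ T, |w.ord z| :=
        Finset.single_le_sum (f := fun w => ∑ z ∈ T, |w.ord z|)
          (fun _ _ => Finset.sum_nonneg fun _ _ => abs_nonneg _) hw
      have h3 := neg_abs_le (w.ord z)
      have h4 := Int.self_le_toNat (∑ w ∈ W, ∑ z ∈ T, |w.ord z|)
      rw [hc0]
      linarith
    have hT1 : ∀ g ∈ G0, g (aeval Z Q) ∈ T := fun g hg =>
      Finset.mem_biUnion.2 ⟨g, by simpa using hg, Finset.mem_insert_self _ _⟩
    have hT2 : ∀ g ∈ G0, ∀ i, g (b i) ∈ T := fun g hg i =>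
      Finset.mem_biUnion.2 ⟨g, by simpa using hg, Finset.mem_insert_of_mem
        (Finset.mem_image_of_mem _ (Finset.mem_univ i))⟩
    have hW1 : w0 ∈ W := Finset.mem_union_left _ (Finset.mem_singleton_self _)
    have hW2 : ∀ s, ws s ∈ W := fun s =>
      Finset.mem_union_right _ (Finset.mem_image_of_mem _ (Finset.mem_univ s))
    exact ⟨c0, fun g hg => ⟨hmain _ hW1 _ (hT1 g (hGG hg)),
      fun i => hmain _ hW1 _ (hT2 g (hGG hg) i)⟩,
      fun s g hg => ⟨hmain _ (hW2 s) _ (hT1 g hg), fun i => hmain _ (hW2 s) _ (hT2 g hg i)⟩⟩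
  refine ⟨δ, 2 * c0, fun j q D M N f hf hfine hinf hDq htest A hA => ?_⟩
  have hpow : ∀ (w : Place k K) (z : K), Ge w (- (c0 : ℤ)) z → ∀ i : ℕ, Ge w (- (i * c0 : ℤ)) (z ^ i) := by
    intro w z hz i
    induction i with
    | zero => simpa using (Ge.one (P := w))
    | succ i ih =>
      rw [pow_succ]
      refine (ih.mul hz).mono (le_of_eq ?_)
      push_cast
      ring
  have hγq : γ ^ q ≠ 0 := pow_ne_zero _ hγ0
  let Ψ : K →ₗ[k] (Fin δ → K) := LinearMap.pi fun i =>
    (tr G0).comp (LinearMap.mulRight k ((γ ^ q)⁻¹ * (aeval Z Q ^ (j + 1) * b i)))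
  have hΨ : ∀ f i, Ψ f i = tr G0 (f * ((γ ^ q)⁻¹ * (aeval Z Q ^ (j + 1) * b i))) := fun f i => rfl
  have hΨinj : Function.Injective Ψ := by
    rw [← LinearMap.ker_eq_bot, LinearMap.ker_eq_bot']
    intro f hf
    have h1 : f * (γ ^ q)⁻¹ * aeval Z Q ^ (j + 1) = 0 := by
      refine tr_inj G0 fun y => ?_
      rw [← b.sum_repr y, Finset.mul_sum, map_sum]
      refine Finset.sum_eq_zero fun i _ => ?_
      have h2 : f * (γ ^ q)⁻¹ * aeval Z Q ^ (j + 1) * (b.repr y i • b i) =
          (b.repr y i : fixedField G0) * (f * ((γ ^ q)⁻¹ * (aeval Z Q ^ (j + 1) * b i))) := by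
        rw [Algebra.smul_def]
        change f * (γ ^ q)⁻¹ * aeval Z Q ^ (j + 1) * ((b.repr y i : K) * b i) = _
        ring
      rw [h2, tr_lin, ← hΨ, congrFun hf i]
      simp
    exact (mul_eq_zero.1 ((mul_eq_zero.1 h1).resolve_right (pow_ne_zero _ hQK))).resolve_right
      (inv_ne_zero hγq)
  -- the traces
  have hmem : ∀ l i, ∃ R : MvPolynomial (Fin (d + 1)) k,
      Ψ (f l) i = ((aeval Y R : fixedField G0) : K) ∧ R.support ⊆ A := by
    intro l i
    obtain ⟨z, hz⟩ : ∃ z, z = f l * (aeval Z Q ^ (j + 1) * b i) := ⟨_, rfl⟩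
    have hzγ : f l * ((γ ^ q)⁻¹ * (aeval Z Q ^ (j + 1) * b i)) = z / γ ^ q := by
      rw [hz, div_eq_mul_inv]
      ring
    rw [hΨ, hzγ]
    have hgz : ∀ g ∈ G, g z = (aeval Z Q ^ j * g (f l)) * (aeval Z Q * g (b i)) := by
      intro g hg
      rw [hz, map_mul, map_mul, map_pow, hgQ g hg]
      ring
    obtain ⟨t, ht⟩ : ∃ t : fixedField G, (t : K) = tr G z := ⟨⟨_, tr_fix G z⟩, rfl⟩
    have hreg : ∃ P : MvPolynomial (Fin (d + 1)) k, t = aeval X P := by
      refine poly_of_reg hX fun p hp v hv1 hv2 => ?_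
      obtain ⟨w, e, hwv, hdom⟩ := hfine l p hp v hv1 hv2
      have hwZ : ∀ P : MvPolynomial (Fin (d + 1)) k, w.Reg (aeval Z P) := by
        intro P
        rw [← hXZ]
        refine hwv.reg.2 ?_
        by_cases hP : P = 0
        · rw [hP, map_zero]
          exact v.reg_zero
        · exact Or.inr (hv2 P hP).1
      have h1 : w.Reg (t : K) := by
        rw [ht]
        refine tr_ge G (N := 0) fun g hg => ?_
        rw [hgz g hg]
        refine w.reg_mul ?_ (hQb i g hg w hwZ)
        rcases hdom g hg with h3 | ⟨s', hs', hs0, hle⟩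
        · rw [h3, map_zero, mul_zero]
          exact w.reg_zero
        · obtain ⟨s, hsS, rfl⟩ := mem_pw.1 hs'
          by_cases hf0 : f l = 0
          · rw [hf0, map_zero, mul_zero]
            exact w.reg_zero
          have hgf : g (f l) ≠ 0 := by simpa using hf0
          have hgs : g (s ^ j) ≠ 0 := by simpa using hs0
          have h4 : w.Reg (aeval Z Q ^ j * g (s ^ j)) := by
            rw [map_pow, ← mul_pow]
            exact reg_pow' w (hQS s hsS g hg w hwZ) j
          have h5 := h4.resolve_left (mul_ne_zero (pow_ne_zero _ hQK) hgs)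
          right
          rw [w.ord_mul (pow_ne_zero _ hQK) hgf]
          rw [w.ord_mul (pow_ne_zero _ hQK) hgs] at h5
          linarith
      exact hwv.reg.1 h1
    obtain ⟨P, hP⟩ := hreg
    have htr : tr G0 (aeval Z P / γ ^ q) = (Nat.card G : K) * tr G0 (z / γ ^ q) := by
      rw [← tr_tr G0 G hGG, ← hXZ, ← hP, ht]
      congr 1
      rw [tr_apply, tr_apply, Finset.sum_div]
      refine Finset.sum_congr rfl fun g _ => ?_
      rw [map_div₀, map_pow, hγ g g.2]
    have hGne : (Nat.card G : K) ≠ 0 := by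
      have h4 : Nat.card G ≠ 0 := Nat.card_pos.ne'
      exact_mod_cast h4
    by_cases hP0 : P = 0
    · refine ⟨0, ?_, by simp⟩
      rw [hP0, map_zero, zero_div, map_zero] at htr
      rcases mul_eq_zero.1 htr.symm with h | h
      · exact absurd h hGne
      · rw [h, map_zero]
        rfl
    -- the degree
    have hdeg : (degB Finset.univ P : ℤ) ≤ D + (2 * c0) * (j + 1) := by
      have h1 : Ge w0 (- (e0 * D) - (j + 2) * c0) (t : K) := by
        rw [ht]
        refine tr_ge G fun g hg => ?_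
        rw [hgz g hg]
        have h2 := hpow w0 _ ((hc0 g hg).1) j
        rw [hgQ g hg] at h2
        have h3 := (hc0 g hg).1
        rw [hgQ g hg] at h3
        refine ((h2.mul (hinf l g hg)).mul (h3.mul ((hc0 g hg).2 i))).mono (le_of_eq ?_)
        ring
      have ht0 : (t : K) ≠ 0 := by
        rw [hP]
        have := hX.ne hP0
        simpa using this
      have h2 := h1.resolve_left ht0
      have h3 : w0.ord (t : K) = e0 * v0.ord t := h0.2 t
      rw [h3, hP, hv0 P hP0] at h2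
      have he : (1 : ℤ) ≤ e0 := by exact_mod_cast h0.1
      obtain ⟨g, hg⟩ : ∃ g : ℤ, g = (degB Finset.univ P : ℤ) - D := ⟨_, rfl⟩
      have h4 : (e0 : ℤ) * g ≤ (j + 2) * c0 := by
        rw [hg]
        linarith
      have h5 : g ≤ (j + 2) * c0 := by
        by_cases hg0 : g ≤ 0
        · exact hg0.trans (by positivity)
        · push Not at hg0
          nlinarith
      have h6 : ((j : ℤ) + 2) * c0 ≤ (2 * c0) * (j + 1) := by
        have : (0 : ℤ) ≤ (j : ℤ) * c0 := by positivity
        nlinarith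
      linarith
    have hPE : ∀ m ∈ P.support, ∑ b, m b ≤ E * q := by
      intro m hm
      have h1 := sum_le_degB (B := Finset.univ) hm
      have h2 : ((∑ b, m b : ℕ) : ℤ) ≤ ((E * q : ℕ) : ℤ) := by
        have h3 : ((∑ b, m b : ℕ) : ℤ) ≤ degB Finset.univ P := by exact_mod_cast h1
        push_cast at hDq h3 ⊢
        linarith
      exact_mod_cast h2
    obtain ⟨R, hR1⟩ := tr_int G0 hY (hint q P hPE)
    have hR' : tr G0 (z / γ ^ q) =
        ((aeval Y (C ((Nat.card G : k)⁻¹) * R) : fixedField G0) : K) := by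
      have h1 : (Nat.card G : k) ≠ 0 := by
        have h4 : Nat.card G ≠ 0 := Nat.card_pos.ne'
        exact_mod_cast h4
      rw [map_mul, aeval_C]
      change _ = algebraMap k K _ * ((aeval Y R : fixedField G0) : K)
      rw [← hR1, htr, map_inv₀, map_natCast]
      field_simp
    refine ⟨C ((Nat.card G : k)⁻¹) * R, hR', fun a ha => ?_⟩
    refine hA a fun s => ?_
    have hRne : C ((Nat.card G : k)⁻¹) * R ≠ 0 := by
      intro h
      rw [h] at ha
      simp at ha
    have h1 : Ge (ws s) (M s - (j + 2) * c0) (tr G0 (z / γ ^ q)) := by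
      refine tr_ge G0 fun g hg => ?_
      have h2 : g (z / γ ^ q) = g (f l / γ ^ q) * (g (aeval Z Q) ^ (j + 1) * g (b i)) := by
        rw [hz, map_div₀, map_div₀, map_mul, map_mul, map_pow]
        ring
      rw [h2]
      have h3 := hpow (ws s) _ ((hc0' s g hg).1) (j + 1)
      refine ((htest l s g hg).mul (h3.mul ((hc0' s g hg).2 i))).mono (le_of_eq ?_)
      push_cast
      ring
    have h2 : tr G0 (z / γ ^ q) ≠ 0 := by
      rw [hR']
      have := hY.ne hRne
      simpa using this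
    have h3 := h1.resolve_left h2
    rw [hR'] at h3
    have h4 : (ws s).ord ((aeval Y (C ((Nat.card G : k)⁻¹) * R) : fixedField G0) : K) =
      es s * (vs s).ord (aeval Y (C ((Nat.card G : k)⁻¹) * R)) := (hs s).2 _
    rw [h4, hvs s _ hRne] at h3
    have h6 : (es s : ℤ) * zord (lam s) (C ((Nat.card G : k)⁻¹) * R) ≤ es s * zwt (lam s) a :=
      mul_le_mul_of_nonneg_left (zord_le (lam s) ha) (by positivity)
    have h7 : ((j : ℤ) + 2) * c0 ≤ (2 * c0 : ℕ) * (j + 1) := by
      push_cast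
      have : (0 : ℤ) ≤ (j : ℤ) * c0 := by positivity
      nlinarith
    linarith
  -- the span
  let V : Submodule k K := Submodule.span k (Set.range fun a : A =>
    ((aeval Y (monomial a.1 (1 : k)) : fixedField G0) : K))
  have hV1 : Module.finrank k V ≤ A.card := by
    refine (finrank_range_le_card _).trans (le_of_eq ?_)
    rw [Fintype.card_coe]
  have hVfin : FiniteDimensional k V := FiniteDimensional.span_of_finite k (Set.finite_range _)
  have hmemV : ∀ l i, Ψ (f l) i ∈ V := by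
    intro l i
    obtain ⟨R, hR, hRA⟩ := hmem l i
    rw [hR, R.as_sum, map_sum, AddSubmonoidClass.coe_finset_sum]
    refine Submodule.sum_mem _ fun a ha => ?_
    have h1 : monomial a (coeff a R) = coeff a R • monomial a (1 : k) := by
      rw [smul_monomial, smul_eq_mul, mul_one]
    rw [h1, map_smul]
    exact Submodule.smul_mem _ _ (Submodule.subset_span ⟨⟨a, hRA ha⟩, rfl⟩)
  have hlin : LinearIndependent k fun l => (fun i => ⟨Ψ (f l) i, hmemV l i⟩ : Fin δ → V) := by
    have h1 : LinearIndependent k (Ψ ∘ f) := hf.map' Ψ (LinearMap.ker_eq_bot.2 hΨinj)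
    exact LinearIndependent.of_comp (V.subtype.compLeft (Fin δ)) h1
  have h1 := hlin.fintype_card_le_finrank
  rw [Fintype.card_fin, Module.finrank_pi_fintype, Finset.sum_const, Finset.card_univ,
    Fintype.card_fin, smul_eq_mul] at h1
  exact h1.trans (Nat.mul_le_mul_left _ hV1)

end

end Pool.Agent.Y169.TH
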